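import Mathlib

/-!
# First-order formulas in the language of contact algebras, algebras of regular closed sets
-/

set_option autoImplicit false

universe u

namespace Pool.Agent.R620.NC

/-- Structures for the language of contact algebras. -/
structure Str where
  /-- the elements -/
  B : Type u
  /-- the constant `0` -/
  zero : B
  /-- the constant `1` -/
  one : B
  /-- the operation `·` -/
  mul : B → B → B
  /-- the operation `+` -/
  add : B → B → B
  /-- the operation `*` -/
  star : B → B
  /-- the contact -/
  C : B → B → Prop

/-- Terms; the variables are the natural numbers. -/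
inductive Tm where
  | var (n : ℕ)
  | zero
  | one
  | mul (s t : Tm)
  | add (s t : Tm)
  | star (s : Tm)

/-- First-order formulas. -/
inductive Fm where
  | eq (s t : Tm)
  | con (s t : Tm)
  | neg (φ : Fm)
  | and (φ ψ : Fm)
  | all (n : ℕ) (φ : Fm)

/-- The value of a term. -/
def Str.val (S : Str.{u}) (v : ℕ → S.B) : Tm → S.B
  | .var n => v n
  | .zero => S.zero
  | .one => S.one
  | .mul s t => S.mul (S.val v s) (S.val v t)
  | .add s t => S.add (S.val v s) (S.val v t)
  | .star s => S.star (S.val v s)

/-- The truth of a formula under an assignment. -/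
def Str.Sat (S : Str.{u}) : (ℕ → S.B) → Fm → Prop
  | v, .eq s t => S.val v s = S.val v t
  | v, .con s t => S.C (S.val v s) (S.val v t)
  | v, .neg φ => ¬ S.Sat v φ
  | v, .and φ ψ => S.Sat v φ ∧ S.Sat v ψ
  | v, .all n φ => ∀ b : S.B, S.Sat (Function.update v n b) φ

/-- Clans: nonempty sets of elements which do not contain `0`, are closed upwards (`a ≤ b` is
`a · b = a`), are prime, and whose elements are pairwise in contact. -/
structure Str.IsClan (S : Str.{u}) (Γ : Set S.B) : Prop where
  nonempty : Γ.Nonempty
  zero : S.zero ∉ Γ
  up : ∀ a ∈ Γ, ∀ b, S.mul a b = a → b ∈ Γ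
  prime : ∀ a b, S.add a b ∈ Γ → a ∈ Γ ∨ b ∈ Γ
  con : ∀ a ∈ Γ, ∀ b ∈ Γ, S.C a b

/-- Regular closed subsets. -/
def RCl (X : Type u) [TopologicalSpace X] : Type u := {a : Set X // closure (interior a) = a}

variable (X : Type u) [TopologicalSpace X]

theorem rcl_closure {a : Set X} (h : IsOpen a) :
    closure (interior (closure a)) = closure a := by
  apply subset_antisymm
  · calc closure (interior (closure a)) ⊆ closure (closure a) := closure_mono interior_subset
      _ = closure a := closure_closure
  · apply closure_mono
    exact interior_maximal subset_closure h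

/-- The standard contact algebra of the regular closed sets of `X`. -/
def RC : Str.{u} where
  B := RCl X
  zero := ⟨∅, by simp⟩
  one := ⟨Set.univ, by simp⟩
  mul a b := ⟨closure (interior (a.1 ∩ b.1)), rcl_closure X isOpen_interior⟩
  add a b := ⟨a.1 ∪ b.1, by
    apply subset_antisymm
    · have h : IsClosed (a.1 ∪ b.1) := by
        rw [← a.2, ← b.2]
        exact isClosed_closure.union isClosed_closure
      calc closure (interior (a.1 ∪ b.1)) ⊆ closure (a.1 ∪ b.1) := closure_mono interior_subset
        _ = a.1 ∪ b.1 := h.closure_eq
    · have h1 : a.1 ⊆ closure (interior (a.1 ∪ b.1)) := by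
        conv_lhs => rw [← a.2]
        exact closure_mono (interior_mono Set.subset_union_left)
      have h2 : b.1 ⊆ closure (interior (a.1 ∪ b.1)) := by
        conv_lhs => rw [← b.2]
        exact closure_mono (interior_mono Set.subset_union_right)
      exact Set.union_subset h1 h2⟩
  star a := ⟨closure a.1ᶜ, rcl_closure X (by
    have : IsClosed a.1 := by
      rw [← a.2]
      exact isClosed_closure
    exact this.isOpen_compl)⟩
  C a b := (a.1 ∩ b.1).Nonempty

/-- The clans of `RC X` are the sets of the regular closed sets containing some point. -/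
def ClansArePoints : Prop :=
  ∀ Γ : Set (RC X).B, (RC X).IsClan Γ → ∃ x : X, Γ = {a | x ∈ a.1}

/-- The formula `φ` defines the `n`-ary contact of the variables `0, …, n - 1` in `RC X`. -/
def Defines (n : ℕ) (φ : Fm) : Prop :=
  ∀ v : ℕ → (RC X).B, (RC X).Sat v φ ↔ (⋂ i, ⋂ (_ : i < n), (v i).1).Nonempty

end Pool.Agent.R620.NC
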