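import Pool.Agent.R620.NC.Space

/-!
# Shift graphs
-/

set_option autoImplicit false

namespace Pool.Agent.R620.NC

/-- Three copies of the set of the pairs `a < b` below `M`. -/
def Vx (M : ℕ) : Type := {p : Fin 3 × ℕ × ℕ // p.2.1 < p.2.2 ∧ p.2.2 < M}

instance (M : ℕ) : Finite (Vx M) := by
  have : Function.Injective (fun p : Vx M =>
      ((p.1.1, ⟨p.1.2.1, p.2.1.trans p.2.2⟩, ⟨p.1.2.2, p.2.2⟩) : Fin 3 × Fin M × Fin M)) := by
    rintro ⟨⟨c, a, b⟩, h⟩ ⟨⟨c', a', b'⟩, h'⟩ hh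
    simp only [Prod.mk.injEq, Fin.mk.injEq] at hh
    obtain ⟨rfl, rfl, rfl⟩ := hh
    rfl
  exact Finite.of_injective _ this

/-- The pair `(a, b)` of one copy is joined to the pair `(b, d)` of a later copy. -/
def Ed {M : ℕ} (x y : Vx M) : Prop := x.1.1 < y.1.1 ∧ x.1.2.2 = y.1.2.1

/-- Adjacency. -/
def ad (M : ℕ) (x y : Vx M) : Prop := x = y ∨ Ed x y ∨ Ed y x

theorem ad_refl (M : ℕ) (x : Vx M) : ad M x x := Or.inl rfl

theorem ad_symm (M : ℕ) (x y : Vx M) : ad M x y → ad M y x := by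
  rintro (h | h | h)
  exacts [Or.inl h.symm, Or.inr (Or.inr h), Or.inr (Or.inl h)]

theorem ed_of_ad {M : ℕ} {x y : Vx M} (h : ad M x y) (hc : x.1.1 < y.1.1) : Ed x y := by
  rcases h with h | h | h
  · subst h
    exact absurd hc (lt_irrefl _)
  · exact h
  · exact absurd (hc.trans h.1) (lt_irrefl _)

theorem no_triangle {M : ℕ} {x y z : Vx M} (hx : x.1.1 = 0) (hy : y.1.1 = 1) (hz : z.1.1 = 2)
    (hxy : ad M x y) (hyz : ad M y z) (hxz : ad M x z) : False := by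
  have h1 := (ed_of_ad hxy (by rw [hx, hy]; decide)).2
  have h2 := (ed_of_ad hyz (by rw [hy, hz]; decide)).2
  have h3 := (ed_of_ad hxz (by rw [hx, hz]; decide)).2
  have h4 := y.2.1
  omega

/-- The three copies and, for the other variables, the whole set. -/
def as (M : ℕ) (n : ℕ) : Set (Vx M) := {x | ∀ h : n < 3, x.1.1 = ⟨n, h⟩}

section Sum

variable (e : ℕ → ℕ)

/-- The adjacency of the sum. -/
abbrev Ad : (Σ j, Vx (e j)) → (Σ j, Vx (e j)) → Prop := SAdj fun j => ad (e j)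

theorem Ad.mk (j : ℕ) (x y : Vx (e j)) (h : ad (e j) x y) : Ad e ⟨j, x⟩ ⟨j, y⟩ :=
  @SAdj.mk _ (fun j => Vx (e j)) (fun j => ad (e j)) j x y h

theorem Ad_refl (p : Σ j, Vx (e j)) : Ad e p p := Ad.mk e p.1 p.2 p.2 (ad_refl _ _)

theorem Ad_symm (p q : Σ j, Vx (e j)) (h : Ad e p q) : Ad e q p := by
  obtain ⟨j, x, y, hxy⟩ := h
  exact Ad.mk e j y x (ad_symm _ _ _ hxy)

/-- A prime family contains a member of each finite cover of one of its members. -/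
theorem exists_of_iUnion {V : Type} {adj : V → V → Prop} {Γ : Set (Set V)} (hΓ : IsCl adj Γ)
    {ι : Type} (s : Finset ι) (f : ι → Set V) (h : (⋃ i ∈ s, f i) ∈ Γ) : ∃ i ∈ s, f i ∈ Γ := by
  classical
  induction s using Finset.induction_on with
  | empty => simp [hΓ.empty] at h
  | insert i s hi ih =>
    rw [Finset.set_biUnion_insert] at h
    rcases hΓ.prime _ _ h with h | h
    · exact ⟨i, Finset.mem_insert_self _ _, h⟩
    · obtain ⟨j, hj, hjΓ⟩ := ih h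
      exact ⟨j, Finset.mem_insert_of_mem hj, hjΓ⟩

/-- The sum of copies of one graph has no clan containing the three copies. -/
theorem no_clan (M : ℕ) (Γ : Set (Set (Σ _ : ℕ, Vx M))) (hΓ : IsCl (Ad fun _ => M) Γ)
    (h : ∀ i < 3, sm (fun _ => as M) i ∈ Γ) : False := by
  have key : ∀ i (hi : i < 3), ∃ x : Vx M, x.1.1 = ⟨i, hi⟩ ∧
      {p : Σ _ : ℕ, Vx M | p.2 = x} ∈ Γ := by
    intro i hi
    have := Fintype.ofFinite (Vx M)
    classical
    obtain ⟨x, hx, hxΓ⟩ := exists_of_iUnion hΓ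
      ((Finset.univ : Finset (Vx M)).filter fun x => x.1.1 = ⟨i, hi⟩)
      (fun x => {p : Σ _ : ℕ, Vx M | p.2 = x}) (by
        refine hΓ.up _ (h i hi) _ fun p hp => ?_
        simp only [Set.mem_iUnion]
        exact ⟨p.2, by simpa using hp hi, rfl⟩)
    exact ⟨x, by simpa using hx, hxΓ⟩
  have key2 : ∀ x y : Vx M, {p : Σ _ : ℕ, Vx M | p.2 = x} ∈ Γ →
      {p : Σ _ : ℕ, Vx M | p.2 = y} ∈ Γ → ad M x y := by
    intro x y hx hy
    obtain ⟨p, hp, q, hq, hpq⟩ := hΓ.con _ hx _ hy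
    obtain ⟨j, x', y', hxy⟩ := hpq
    have h1 : x' = x := hp
    have h2 : y' = y := hq
    subst h1 h2
    exact hxy
  obtain ⟨x, hx, hxΓ⟩ := key 0 (by omega)
  obtain ⟨y, hy, hyΓ⟩ := key 1 (by omega)
  obtain ⟨z, hz, hzΓ⟩ := key 2 (by omega)
  exact no_triangle hx hy hz (key2 x y hxΓ hyΓ) (key2 y z hyΓ hzΓ) (key2 x z hxΓ hzΓ)

/-- A nonprincipal ultrafilter. -/
noncomputable abbrev F : Ultrafilter ℕ := Filter.hyperfilter ℕ

theorem F_gt (a : ℕ) : ∀ᶠ b in (F : Filter ℕ), a < b := by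
  have h1 : (F : Filter ℕ) ≤ Filter.atTop := by
    rw [← Nat.cofinite_eq_atTop]
    exact Filter.hyperfilter_le_cofinite
  exact h1 (Filter.eventually_gt_atTop a)

variable {e}

/-- The vertex `(a, b)` of the copy `c` in the summand `j` belongs to `x`. -/
def Pt (x : Set (Σ j, Vx (e j))) (c : Fin 3) (a b j : ℕ) : Prop :=
  ∃ h : a < b ∧ b < e j, (⟨j, ⟨(c, a, b), h⟩⟩ : Σ j, Vx (e j)) ∈ x

/-- The iterated limit ultrafilters. -/
def Um (c : Fin 3) (x : Set (Σ j, Vx (e j))) : Prop :=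
  ∀ᶠ a in (F : Filter ℕ), ∀ᶠ b in (F : Filter ℕ), ∀ᶠ j in (F : Filter ℕ), Pt x c a b j

theorem Um_or (c : Fin 3) (x y : Set (Σ j, Vx (e j))) (h : Um c (x ∪ y)) : Um c x ∨ Um c y := by
  have h1 : ∀ a b j, Pt (x ∪ y) c a b j ↔ (Pt x c a b j ∨ Pt y c a b j) := by
    intro a b j
    constructor
    · rintro ⟨hab, h | h⟩
      exacts [Or.inl ⟨hab, h⟩, Or.inr ⟨hab, h⟩]
    · rintro (⟨hab, h⟩ | ⟨hab, h⟩)
      exacts [⟨hab, Or.inl h⟩, ⟨hab, Or.inr h⟩]
  simp only [Um, h1, Ultrafilter.eventually_or] at h ⊢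
  exact h

theorem Um_contact {c c' : Fin 3} (hc : c < c') {x y : Set (Σ j, Vx (e j))} (hx : Um c x)
    (hy : Um c' y) : ∃ p ∈ x, ∃ q ∈ y, Ad e p q := by
  obtain ⟨a, ha⟩ := hx.exists
  obtain ⟨b, hb, hb'⟩ := (ha.and hy).exists
  obtain ⟨d, hd⟩ := hb'.exists
  obtain ⟨j, ⟨h1, h2⟩, ⟨h3, h4⟩⟩ := (hb.and hd).exists
  exact ⟨_, h2, _, h4, Ad.mk e j _ _ (Or.inr (Or.inl ⟨hc, rfl⟩))⟩

theorem Um_meet {c : Fin 3} {x y : Set (Σ j, Vx (e j))} (hx : Um c x) (hy : Um c y) :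
    ∃ p ∈ x, ∃ q ∈ y, Ad e p q := by
  obtain ⟨a, ha, ha'⟩ := (hx.and hy).exists
  obtain ⟨b, hb, hb'⟩ := (ha.and ha').exists
  obtain ⟨j, ⟨h1, h2⟩, ⟨h3, h4⟩⟩ := (hb.and hb').exists
  exact ⟨_, h2, _, h4, Ad_refl e _⟩

/-- The sum of graphs of unbounded size has a clan containing the three copies. -/
theorem clan_exists (he : ∀ k, ∀ᶠ j in (F : Filter ℕ), k < e j) :
    ∃ Γ : Set (Set (Σ j, Vx (e j))), IsCl (Ad e) Γ ∧ ∀ i, sm (fun j => as (e j)) i ∈ Γ := by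
  have hall : ∀ c : Fin 3, ∀ᶠ a in (F : Filter ℕ), ∀ᶠ b in (F : Filter ℕ),
      ∀ᶠ j in (F : Filter ℕ), a < b ∧ b < e j := by
    intro c
    refine Filter.Eventually.of_forall fun a => ?_
    filter_upwards [F_gt a] with b hb
    filter_upwards [he b] with j hj
    exact ⟨hb, hj⟩
  refine ⟨{x | ∃ c, Um c x}, ?_, ?_⟩
  · refine ⟨⟨0, ?_⟩, ?_, ?_, ?_, ?_⟩
    · refine (hall 0).mono fun a ha => ha.mono fun b hb => hb.mono fun j hj => ⟨hj, trivial⟩
    · rintro ⟨c, hc⟩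
      obtain ⟨a, ha⟩ := hc.exists
      obtain ⟨b, hb⟩ := ha.exists
      obtain ⟨j, hj, h⟩ := hb.exists
      exact h
    · rintro x ⟨c, hc⟩ y hxy
      exact ⟨c, hc.mono fun a ha => ha.mono fun b hb => hb.mono fun j ⟨hj, h⟩ => ⟨hj, hxy h⟩⟩
    · rintro x y ⟨c, hc⟩
      rcases Um_or c x y hc with h | h
      exacts [Or.inl ⟨c, h⟩, Or.inr ⟨c, h⟩]
    · rintro x ⟨c, hc⟩ y ⟨c', hc'⟩
      rcases lt_trichotomy c c' with h | h | h
      · exact Um_contact h hc hc'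
      · subst h
        exact Um_meet hc hc'
      · obtain ⟨q, hq, p, hp, hqp⟩ := Um_contact h hc' hc
        exact ⟨p, hp, q, hq, Ad_symm e _ _ hqp⟩
  · intro i
    by_cases hi : i < 3
    · refine ⟨⟨i, hi⟩, (hall 0).mono fun a ha => ha.mono fun b hb => hb.mono fun j hj =>
        ⟨hj, fun _ => rfl⟩⟩
    · refine ⟨0, (hall 0).mono fun a ha => ha.mono fun b hb => hb.mono fun j hj =>
        ⟨hj, fun h => absurd h hi⟩⟩

end Sum

/-- No formula defines the `n`-ary contact. -/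
theorem main (n : ℕ) (hn : 3 ≤ n) (φ : Fm) :
    ∃ (X : Type) (_ : TopologicalSpace X), CompactSpace X ∧ T0Space X ∧ ClansArePoints X ∧
      ¬ Defines X n φ := by
  obtain ⟨K, r, hb⟩ := φ.exists_bd
  obtain ⟨τ, hτ⟩ := Finite.exists_infinite_fiber fun M => tp (ad M) K r (as M)
  have hinf : (Set.range (Subtype.val : ((fun M => tp (ad M) K r (as M)) ⁻¹' {τ}) → ℕ)).Infinite :=
    Set.infinite_range_of_injective Subtype.val_injective
  rw [Subtype.range_coe] at hinf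
  set e : ℕ → ℕ := Nat.nth (fun M => M ∈ ((fun M => tp (ad M) K r (as M)) ⁻¹' {τ})) with he
  have hmem : ∀ j, tp (ad (e j)) K r (as (e j)) = τ := fun j => Nat.nth_mem_of_infinite hinf j
  have hmono : StrictMono e := Nat.nth_strictMono hinf
  have hev : ∀ k, ∀ᶠ j in (F : Filter ℕ), k < e j := by
    intro k
    filter_upwards [F_gt k] with j hj
    exact hj.trans_le (hmono.id_le j)
  set e' : ℕ → ℕ := fun _ => e 0 with he'
  have htp : tp (Ad e) K r (sm fun j => as (e j)) = tp (Ad e') K r (sm fun j => as (e' j)) :=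
    tp_sum _ _ r _ _ fun j => by rw [hmem j]; exact (hmem 0).symm
  have hsat := sat_iff_of_tp (Ad_refl e) (Ad_refl e') φ r hb htp
  by_contra hcon
  push Not at hcon
  have h1 := hcon (CX (Ad e)) inferInstance inferInstance inferInstance
    (clansArePoints (Ad_refl e) (Ad_symm e)) fun i => G (Ad_refl e) (Ad_symm e) (sm (fun j => as (e j)) i)
  have h2 := hcon (CX (Ad e')) inferInstance inferInstance inferInstance
    (clansArePoints (Ad_refl e') (Ad_symm e'))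
    fun i => G (Ad_refl e') (Ad_symm e') (sm (fun j => as (e' j)) i)
  rw [sat_G] at h1 h2
  rw [hsat, h2] at h1
  obtain ⟨Γ, hΓ, hΓm⟩ := clan_exists hev
  obtain ⟨Δ, hΔ⟩ := h1.2 ⟨⟨Γ, hΓ⟩, Set.mem_iInter.2 fun i => Set.mem_iInter.2 fun _ => hΓm i⟩
  refine no_clan (e 0) Δ.1 Δ.2 fun i hi => ?_
  have h3 := Set.mem_iInter.1 (Set.mem_iInter.1 hΔ i) (hi.trans_le hn)
  exact h3

end Pool.Agent.R620.NC
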