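import Pool.Agent.R620.NC.Defs

/-!
# Countable elementary substructures
-/

set_option autoImplicit false

universe u

namespace Pool.Agent.R620.NC

deriving instance Countable for Tm
deriving instance Countable for Fm

/-- All variables of the term are below `K`. -/
def Tm.Below (K : ℕ) : Tm → Prop
  | .var n => n < K
  | .zero => True
  | .one => True
  | .mul s t => s.Below K ∧ t.Below K
  | .add s t => s.Below K ∧ t.Below K
  | .star s => s.Below K

/-- All variables of the formula are below `K`. -/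
def Fm.Below (K : ℕ) : Fm → Prop
  | .eq s t => s.Below K ∧ t.Below K
  | .con s t => s.Below K ∧ t.Below K
  | .neg φ => φ.Below K
  | .and φ ψ => φ.Below K ∧ ψ.Below K
  | .all n φ => n < K ∧ φ.Below K

theorem Tm.Below.mono {K L : ℕ} (h : K ≤ L) : ∀ {t : Tm}, t.Below K → t.Below L
  | .var _, ht => lt_of_lt_of_le ht h
  | .zero, _ => trivial
  | .one, _ => trivial
  | .mul _ _, ht => ⟨Tm.Below.mono h ht.1, Tm.Below.mono h ht.2⟩
  | .add _ _, ht => ⟨Tm.Below.mono h ht.1, Tm.Below.mono h ht.2⟩
  | .star s, ht => Tm.Below.mono (t := s) h ht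

theorem Fm.Below.mono {K L : ℕ} (h : K ≤ L) : ∀ {φ : Fm}, φ.Below K → φ.Below L
  | .eq _ _, ht => ⟨Tm.Below.mono h ht.1, Tm.Below.mono h ht.2⟩
  | .con _ _, ht => ⟨Tm.Below.mono h ht.1, Tm.Below.mono h ht.2⟩
  | .neg φ, ht => Fm.Below.mono (φ := φ) h ht
  | .and _ _, ht => ⟨Fm.Below.mono h ht.1, Fm.Below.mono h ht.2⟩
  | .all _ _, ht => ⟨lt_of_lt_of_le ht.1 h, Fm.Below.mono h ht.2⟩

theorem Tm.exists_below : ∀ t : Tm, ∃ K, t.Below K
  | .var n => ⟨n + 1, Nat.lt_succ_self n⟩
  | .zero => ⟨0, trivial⟩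
  | .one => ⟨0, trivial⟩
  | .mul s t => by
    obtain ⟨K, hK⟩ := s.exists_below
    obtain ⟨L, hL⟩ := t.exists_below
    exact ⟨max K L, hK.mono (le_max_left _ _), hL.mono (le_max_right _ _)⟩
  | .add s t => by
    obtain ⟨K, hK⟩ := s.exists_below
    obtain ⟨L, hL⟩ := t.exists_below
    exact ⟨max K L, hK.mono (le_max_left _ _), hL.mono (le_max_right _ _)⟩
  | .star s => s.exists_below

theorem Fm.exists_below : ∀ φ : Fm, ∃ K, φ.Below K
  | .eq s t => by
    obtain ⟨K, hK⟩ := s.exists_below
    obtain ⟨L, hL⟩ := t.exists_below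
    exact ⟨max K L, hK.mono (le_max_left _ _), hL.mono (le_max_right _ _)⟩
  | .con s t => by
    obtain ⟨K, hK⟩ := s.exists_below
    obtain ⟨L, hL⟩ := t.exists_below
    exact ⟨max K L, hK.mono (le_max_left _ _), hL.mono (le_max_right _ _)⟩
  | .neg φ => φ.exists_below
  | .and φ ψ => by
    obtain ⟨K, hK⟩ := φ.exists_below
    obtain ⟨L, hL⟩ := ψ.exists_below
    exact ⟨max K L, hK.mono (le_max_left _ _), hL.mono (le_max_right _ _)⟩
  | .all n φ => by
    obtain ⟨K, hK⟩ := φ.exists_below
    exact ⟨max K (n + 1), lt_of_lt_of_le (Nat.lt_succ_self n) (le_max_right _ _),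
      hK.mono (le_max_left _ _)⟩

variable (S : Str.{u})

theorem val_congr {K : ℕ} {v w : ℕ → S.B} (h : ∀ k < K, v k = w k) :
    ∀ {t : Tm}, t.Below K → S.val v t = S.val w t
  | .var n, ht => h n ht
  | .zero, _ => rfl
  | .one, _ => rfl
  | .mul s t, ht => by
    simp only [Str.val]
    rw [val_congr h ht.1, val_congr h ht.2]
  | .add s t, ht => by
    simp only [Str.val]
    rw [val_congr h ht.1, val_congr h ht.2]
  | .star s, ht => by
    simp only [Str.val]
    rw [val_congr (t := s) h ht]

theorem sat_congr {K : ℕ} : ∀ {φ : Fm} {v w : ℕ → S.B}, (∀ k < K, v k = w k) → φ.Below K →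
    (S.Sat v φ ↔ S.Sat w φ)
  | .eq s t, v, w, h, hb => by
    simp only [Str.Sat]
    rw [val_congr S h hb.1, val_congr S h hb.2]
  | .con s t, v, w, h, hb => by
    simp only [Str.Sat]
    rw [val_congr S h hb.1, val_congr S h hb.2]
  | .neg φ, v, w, h, hb => not_congr (sat_congr (φ := φ) h hb)
  | .and φ ψ, v, w, h, hb => and_congr (sat_congr h hb.1) (sat_congr h hb.2)
  | .all n φ, v, w, h, hb => by
    refine forall_congr' fun b => sat_congr (fun k hk => ?_) hb.2
    by_cases hkn : k = n
    · subst hkn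
      simp
    · simp [Function.update_of_ne hkn, h k hk]

/-- A subset closed under the operations. -/
structure Str.Closed (T : Set S.B) : Prop where
  zero : S.zero ∈ T
  one : S.one ∈ T
  mul : ∀ a ∈ T, ∀ b ∈ T, S.mul a b ∈ T
  add : ∀ a ∈ T, ∀ b ∈ T, S.add a b ∈ T
  star : ∀ a ∈ T, S.star a ∈ T

/-- The substructure on a closed subset. -/
def Str.sub {T : Set S.B} (h : S.Closed T) : Str.{u} where
  B := T
  zero := ⟨S.zero, h.zero⟩
  one := ⟨S.one, h.one⟩
  mul a b := ⟨S.mul a b, h.mul a a.2 b b.2⟩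
  add a b := ⟨S.add a b, h.add a a.2 b b.2⟩
  star a := ⟨S.star a, h.star a a.2⟩
  C a b := S.C a b

/-- The assignment given by a list. -/
def asg (l : List S.B) (k : ℕ) : S.B := l.getD k S.zero

open Classical in
/-- A counterexample to a universal formula, if there is one. -/
noncomputable def wit (φ : Fm) (n : ℕ) (l : List S.B) : S.B :=
  if h : ∃ b, ¬ S.Sat (Function.update (asg S l) n b) φ then h.choose else S.zero

theorem wit_spec {φ : Fm} {n : ℕ} {l : List S.B}
    (h : ∃ b, ¬ S.Sat (Function.update (asg S l) n b) φ) :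
    ¬ S.Sat (Function.update (asg S l) n (wit S φ n l)) φ := by
  rw [wit, dif_pos h]
  exact h.choose_spec

/-- One step of the closure. -/
def stp (f : ℕ → S.B → S.B → S.B) (T : Set S.B) : Set S.B :=
  T ∪ (Set.image2 S.mul T T ∪ Set.image2 S.add T T ∪ S.star '' T) ∪
    (⋃ i, Set.image2 (f i) T T) ∪
    ⋃ φ : Fm, ⋃ n : ℕ, Set.range fun l : List T => wit S φ n (l.map Subtype.val)

theorem stp_countable (f : ℕ → S.B → S.B → S.B) {T : Set S.B} (hT : T.Countable) :
    (stp S f T).Countable := by
  have := hT.to_subtype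
  refine ((hT.union (((hT.image2 hT _).union (hT.image2 hT _)).union (hT.image _))).union
    (Set.countable_iUnion fun i => hT.image2 hT _)).union ?_
  exact Set.countable_iUnion fun φ => Set.countable_iUnion fun n => Set.countable_range _

/-- The closure. -/
def clo (f : ℕ → S.B → S.B → S.B) (s : Set S.B) : Set S.B :=
  ⋃ i : ℕ, (stp S f)^[i] (s ∪ {S.zero, S.one})

theorem clo_countable (f : ℕ → S.B → S.B → S.B) {s : Set S.B} (hs : s.Countable) :
    (clo S f s).Countable := by
  refine Set.countable_iUnion fun i => ?_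
  induction i with
  | zero => exact hs.union ((Set.countable_singleton _).insert _)
  | succ i ih =>
    rw [Function.iterate_succ_apply']
    exact stp_countable S f ih

theorem iter_mono (f : ℕ → S.B → S.B → S.B) (s : Set S.B) {i j : ℕ} (h : i ≤ j) :
    (stp S f)^[i] s ⊆ (stp S f)^[j] s := by
  induction j, h using Nat.le_induction with
  | base => exact subset_rfl
  | succ j _ ih =>
    rw [Function.iterate_succ_apply']
    exact fun x hx => Or.inl (Or.inl (Or.inl (ih hx)))

theorem clo_step (f : ℕ → S.B → S.B → S.B) (s : Set S.B) {i : ℕ} {x : S.B}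
    (h : x ∈ stp S f ((stp S f)^[i] (s ∪ {S.zero, S.one}))) : x ∈ clo S f s := by
  rw [← Function.iterate_succ_apply' (stp S f)] at h
  exact Set.mem_iUnion.2 ⟨i + 1, h⟩

theorem clo_two (f : ℕ → S.B → S.B → S.B) (s : Set S.B) {x y : S.B} (hx : x ∈ clo S f s)
    (hy : y ∈ clo S f s) : ∃ i, x ∈ (stp S f)^[i] (s ∪ {S.zero, S.one}) ∧
      y ∈ (stp S f)^[i] (s ∪ {S.zero, S.one}) := by
  obtain ⟨i, hi⟩ := Set.mem_iUnion.1 hx
  obtain ⟨j, hj⟩ := Set.mem_iUnion.1 hy
  exact ⟨max i j, iter_mono S f _ (le_max_left _ _) hi, iter_mono S f _ (le_max_right _ _) hj⟩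

theorem clo_list (f : ℕ → S.B → S.B → S.B) (s : Set S.B) (l : List S.B)
    (h : ∀ x ∈ l, x ∈ clo S f s) :
    ∃ i, ∀ x ∈ l, x ∈ (stp S f)^[i] (s ∪ {S.zero, S.one}) := by
  induction l with
  | nil => exact ⟨0, by simp⟩
  | cons a l ih =>
    obtain ⟨i, hi⟩ := ih fun x hx => h x (List.mem_cons_of_mem _ hx)
    obtain ⟨j, hj⟩ := Set.mem_iUnion.1 (h a List.mem_cons_self)
    refine ⟨max i j, fun x hx => ?_⟩
    rcases List.mem_cons.1 hx with rfl | hx
    · exact iter_mono S f _ (le_max_right _ _) hj
    · exact iter_mono S f _ (le_max_left _ _) (hi x hx)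

theorem clo_closed (f : ℕ → S.B → S.B → S.B) (s : Set S.B) : S.Closed (clo S f s) where
  zero := Set.mem_iUnion.2 ⟨0, Or.inr (Or.inl rfl)⟩
  one := Set.mem_iUnion.2 ⟨0, Or.inr (Or.inr rfl)⟩
  mul a ha b hb := by
    obtain ⟨i, h1, h2⟩ := clo_two S f s ha hb
    exact clo_step S f s (Or.inl (Or.inl (Or.inr (Or.inl (Or.inl ⟨a, h1, b, h2, rfl⟩)))))
  add a ha b hb := by
    obtain ⟨i, h1, h2⟩ := clo_two S f s ha hb
    exact clo_step S f s (Or.inl (Or.inl (Or.inr (Or.inl (Or.inr ⟨a, h1, b, h2, rfl⟩)))))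
  star a ha := by
    obtain ⟨i, h1, -⟩ := clo_two S f s ha ha
    exact clo_step S f s (Or.inl (Or.inl (Or.inr (Or.inr ⟨a, h1, rfl⟩))))

theorem clo_fun (f : ℕ → S.B → S.B → S.B) (s : Set S.B) (i : ℕ) {a b : S.B} (ha : a ∈ clo S f s)
    (hb : b ∈ clo S f s) : f i a b ∈ clo S f s := by
  obtain ⟨j, h1, h2⟩ := clo_two S f s ha hb
  exact clo_step S f s (Or.inl (Or.inr (Set.mem_iUnion.2 ⟨i, a, h1, b, h2, rfl⟩)))

theorem clo_wit (f : ℕ → S.B → S.B → S.B) (s : Set S.B) (φ : Fm) (n : ℕ) (l : List S.B)
    (h : ∀ x ∈ l, x ∈ clo S f s) : wit S φ n l ∈ clo S f s := by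
  obtain ⟨i, hi⟩ := clo_list S f s l h
  refine clo_step S f s (i := i) (Or.inr (Set.mem_iUnion.2 ⟨φ, Set.mem_iUnion.2 ⟨n, ?_⟩⟩))
  refine ⟨l.attach.map fun x => ⟨x.1, hi x.1 x.2⟩, ?_⟩
  have : (List.map Subtype.val (List.map (fun x : {x // x ∈ l} =>
      (⟨x.1, hi x.1 x.2⟩ : ((stp S f)^[i] (s ∪ {S.zero, S.one}) : Set S.B))) l.attach)) = l := by
    rw [List.map_map]
    exact l.attach_map_subtype_val
  simp only [this]

/-- The value of a term in the substructure. -/
def sval {T : Set S.B} (h : S.Closed T) (v : ℕ → T) (t : Tm) : T := (S.sub h).val v t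

theorem val_sub {T : Set S.B} (h : S.Closed T) (v : ℕ → T) :
    ∀ t : Tm, (sval S h v t : S.B) = S.val (fun k => (v k : S.B)) t
  | .var _ => rfl
  | .zero => rfl
  | .one => rfl
  | .mul s t => by
    have h1 := val_sub h v s
    have h2 := val_sub h v t
    simp only [Str.val]
    rw [← h1, ← h2]
    rfl
  | .add s t => by
    have h1 := val_sub h v s
    have h2 := val_sub h v t
    simp only [Str.val]
    rw [← h1, ← h2]
    rfl
  | .star s => by
    have h1 := val_sub h v s
    simp only [Str.val]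
    rw [← h1]
    rfl

/-- The closure is an elementary substructure. -/
theorem sat_clo (f : ℕ → S.B → S.B → S.B) (s : Set S.B) :
    ∀ (φ : Fm) (v : ℕ → clo S f s),
      (S.sub (clo_closed S f s)).Sat v φ ↔ S.Sat (fun k => (v k : S.B)) φ
  | .eq t u, v => by
    simp only [Str.Sat]
    rw [← val_sub S (clo_closed S f s), ← val_sub S (clo_closed S f s)]
    exact Subtype.ext_iff
  | .con t u, v => by
    simp only [Str.Sat]
    rw [← val_sub S (clo_closed S f s), ← val_sub S (clo_closed S f s)]
    exact Iff.rfl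
  | .neg φ, v => not_congr (sat_clo f s φ v)
  | .and φ ψ, v => and_congr (sat_clo f s φ v) (sat_clo f s ψ v)
  | .all n φ, v => by
    have e : ∀ b : clo S f s, (fun k => (Function.update v n b k : S.B)) =
        Function.update (fun k => (v k : S.B)) n (b : S.B) := by
      intro b
      funext k
      by_cases hk : k = n
      · subst hk
        simp
      · simp [Function.update_of_ne hk]
    constructor
    · intro h
      by_contra hcon
      simp only [Str.Sat, not_forall] at hcon
      obtain ⟨b, hb⟩ := hcon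
      obtain ⟨K, hK⟩ := φ.exists_below
      set l : List S.B := (List.range K).map fun k => (v k : S.B) with hl
      have hag : ∀ k < K, asg S l k = v k := by
        intro k hk
        simp [asg, hl, List.getD_eq_getElem?_getD, hk]
      have hag' : ∀ b : S.B, ∀ k < K, Function.update (asg S l) n b k =
          Function.update (fun k => (v k : S.B)) n b k := by
        intro b k hk
        by_cases hkn : k = n
        · subst hkn
          simp
        · simp [Function.update_of_ne hkn, hag k hk]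
      have h1 : ¬ S.Sat (Function.update (asg S l) n b) φ := by
        rw [sat_congr S (hag' b) hK]
        exact hb
      have h2 := wit_spec S ⟨b, h1⟩
      have h3 : wit S φ n l ∈ clo S f s := by
        apply clo_wit
        intro x hx
        obtain ⟨k, -, rfl⟩ := List.mem_map.1 hx
        exact (v k).2
      rw [sat_congr S (hag' _) hK] at h2
      apply h2
      have h4 := (sat_clo f s φ (Function.update v n ⟨wit S φ n l, h3⟩)).1 (h ⟨wit S φ n l, h3⟩)
      rw [e] at h4
      exact h4
    · intro h (b : clo S f s)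
      have h1 : S.Sat (fun k => (Function.update v n b k : S.B)) φ := by
        rw [e b]
        exact h b
      exact (sat_clo f s φ (Function.update v n b)).2 h1

/-- Prefixing universal quantifiers. -/
def Fm.close (φ : Fm) : ℕ → Fm
  | 0 => φ
  | K + 1 => .all K (φ.close K)

theorem sat_close (φ : Fm) : ∀ (K : ℕ) (v : ℕ → S.B), S.Sat v (φ.close K) ↔
    ∀ w : ℕ → S.B, (∀ k, K ≤ k → w k = v k) → S.Sat w φ
  | 0, v => by
    constructor
    · intro h w hw
      have : w = v := funext fun k => hw k (Nat.zero_le k)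
      rw [this]
      exact h
    · intro h
      exact h v fun _ _ => rfl
  | K + 1, v => by
    constructor
    · intro h w hw
      have h1 := h (w K)
      rw [sat_close φ K] at h1
      apply h1
      intro k hk
      by_cases hkK : k = K
      · subst hkK
        simp
      · rw [Function.update_of_ne hkK]
        exact hw k (by omega)
    · intro h b
      rw [sat_close φ K]
      intro w hw
      apply h
      intro k hk
      rw [hw k (by omega), Function.update_of_ne (by omega)]

/-- A formula valid in the closure is valid in the whole structure. -/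
theorem valid_of_clo (f : ℕ → S.B → S.B → S.B) (s : Set S.B) (φ : Fm)
    (h : ∀ v, (S.sub (clo_closed S f s)).Sat v φ) (w : ℕ → S.B) : S.Sat w φ := by
  obtain ⟨K, hK⟩ := φ.exists_below
  set v₀ : ℕ → clo S f s := fun _ => ⟨S.zero, (clo_closed S f s).zero⟩
  have h1 : (S.sub (clo_closed S f s)).Sat v₀ (φ.close K) :=
    (sat_close _ φ K v₀).2 fun w _ => h w
  rw [sat_clo, sat_close] at h1
  have h2 := h1 (fun k => if k < K then w k else S.zero) fun k hk => by
    rw [if_neg (by omega)]
  rw [sat_congr S (K := K) (w := w) (fun k hk => by simp [hk]) hK] at h2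
  exact h2

end Pool.Agent.R620.NC
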