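import Pool.Agent.R620.NC.LS

/-!
# The contact algebra of a Boolean algebra and a subalgebra
-/

set_option autoImplicit false

universe u

namespace Pool.Agent.R620.NC

/-- The structure is a contact algebra: a Boolean algebra with a relation satisfying the axioms
(C1)-(C4). -/
structure Str.IsCA (S : Str.{u}) : Prop where
  bool : ∃ _ : BooleanAlgebra S.B, (∀ a b, S.mul a b = a ⊓ b) ∧ (∀ a b, S.add a b = a ⊔ b) ∧
    (∀ a, S.star a = aᶜ) ∧ S.zero = ⊥ ∧ S.one = ⊤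
  c1 : ∀ a b, S.C a b → a ≠ S.zero ∧ b ≠ S.zero
  c2 : ∀ a b c, S.C a (S.add b c) ↔ S.C a b ∨ S.C a c
  c3 : ∀ a b, S.C a b → S.C b a
  c4 : ∀ a b, S.mul a b ≠ S.zero → S.C a b

/-- Co-ends: clusters `Γ` such that for every `a ∉ Γ` there is `b ∉ Γ` with `a ≪ b`. -/
structure Str.IsCoend (S : Str.{u}) (Γ : Set S.B) : Prop where
  clan : S.IsClan Γ
  cluster : ∀ a, (∀ b ∈ Γ, S.C a b) → a ∈ Γ
  round : ∀ a, a ∉ Γ → ∃ b, b ∉ Γ ∧ ¬ S.C a (S.star b)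

/-- The regularity axiom. -/
def Str.Reg (S : Str.{u}) : Prop := ∀ a b, S.C a b → ∃ Γ, S.IsCoend Γ ∧ a ∈ Γ ∧ b ∈ Γ

variable {A R : Type} [BooleanAlgebra A] [BooleanAlgebra R] (ι : BoundedLatticeHom A R)

/-- The join of the two coordinates. -/
def jn (x : A × R) : R := ι x.1 ⊔ x.2

theorem jn_sup (x y : A × R) : jn ι (x ⊔ y) = jn ι x ⊔ jn ι y := by
  simp only [jn, Prod.fst_sup, Prod.snd_sup, map_sup]
  exact sup_sup_sup_comm _ _ _ _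

theorem jn_mono {x y : A × R} (h : x ≤ y) : jn ι x ≤ jn ι y :=
  sup_le_sup (OrderHomClass.mono ι h.1) h.2

/-- The contact algebra on `A × R`. -/
def PA : Str.{0} where
  B := A × R
  zero := ⊥
  one := ⊤
  mul a b := a ⊓ b
  add a b := a ⊔ b
  star a := aᶜ
  C a b := ¬ Disjoint (jn ι a) (jn ι b)

theorem PA_isCA (hι : Function.Injective ι) : (PA ι).IsCA where
  bool := ⟨(inferInstance : BooleanAlgebra (A × R)), fun _ _ => rfl, fun _ _ => rfl,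
    fun _ => rfl, rfl, rfl⟩
  c1 a b h := by
    constructor
    · intro ha
      apply h
      have : jn ι a = ⊥ := by
        rw [ha]
        change ι ⊥ ⊔ ⊥ = ⊥
        simp
      rw [this]
      exact disjoint_bot_left
    · intro hb
      apply h
      have : jn ι b = ⊥ := by
        rw [hb]
        change ι ⊥ ⊔ ⊥ = ⊥
        simp
      rw [this]
      exact disjoint_bot_right
  c2 := by
    intro (a : A × R) (b : A × R) (c : A × R)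
    change ¬ Disjoint (jn ι a) (jn ι (b ⊔ c)) ↔
      ¬ Disjoint (jn ι a) (jn ι b) ∨ ¬ Disjoint (jn ι a) (jn ι c)
    rw [jn_sup, disjoint_sup_right]
    tauto
  c3 a b h := fun h' => h h'.symm
  c4 := by
    intro (a : A × R) (b : A × R) h hd
    apply h
    have h1 : jn ι (a ⊓ b) ≤ ⊥ := by
      rw [← disjoint_iff.1 hd]
      exact le_inf (jn_mono ι inf_le_left) (jn_mono ι inf_le_right)
    have h2 : ι (a ⊓ b).1 ≤ ⊥ := le_sup_left.trans h1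
    have h3 : (a ⊓ b).2 ≤ ⊥ := le_sup_right.trans h1
    have h4 : (a ⊓ b).1 = ⊥ := hι ((le_bot_iff.1 h2).trans (map_bot ι).symm)
    have h5 : a ⊓ b = ⊥ := Prod.ext h4 (le_bot_iff.1 h3)
    exact h5

/-- Closing functions: `pk 0 a b` is a nonzero element `(d, 0)` with `d ≤ a.1` and `ι d ≤ b.2`, and
`pk 1 a b` is the element `(0, ι a.1 ⊓ b.2)`; the projections are also included. -/
noncomputable def pk (hd : ∀ (d : A) (r : R), ¬ Disjoint (ι d) r → ∃ d', d' ≠ ⊥ ∧ d' ≤ d ∧ ι d' ≤ r) :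
    ℕ → A × R → A × R → A × R
  | 0, a, b => by
    classical
    exact if h : ¬ Disjoint (ι a.1) b.2 then ((hd a.1 b.2 h).choose, ⊥) else ⊥
  | 1, a, b => (⊥, ι a.1 ⊓ b.2)
  | 2, a, _ => (a.1, ⊥)
  | _, a, _ => (⊥, a.2)

/-- The conditions on the countable set. -/
structure Good (T : Set (A × R)) : Prop where
  bot : ⊥ ∈ T
  top : ⊤ ∈ T
  inf : ∀ a ∈ T, ∀ b ∈ T, a ⊓ b ∈ T
  sup : ∀ a ∈ T, ∀ b ∈ T, a ⊔ b ∈ T
  compl : ∀ a ∈ T, aᶜ ∈ T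
  fst : ∀ a ∈ T, (a.1, (⊥ : R)) ∈ T
  snd : ∀ a ∈ T, ((⊥ : A), a.2) ∈ T
  dn : ∀ a ∈ T, ∀ b ∈ T, ¬ Disjoint (ι a.1) b.2 →
    ∃ d : A, d ≠ ⊥ ∧ d ≤ a.1 ∧ ι d ≤ b.2 ∧ (d, (⊥ : R)) ∈ T
  rn : ∀ a ∈ T, ∀ b ∈ T, ((⊥ : A), ι a.1 ⊓ b.2) ∈ T

theorem good_clo
    (hd : ∀ (d : A) (r : R), ¬ Disjoint (ι d) r → ∃ d', d' ≠ ⊥ ∧ d' ≤ d ∧ ι d' ≤ r) :
    Good ι (clo (PA ι) (pk ι hd) ∅) := by
  have hc := clo_closed (PA ι) (pk ι hd) ∅
  refine ⟨hc.zero, hc.one, hc.mul, hc.add, hc.star, fun a ha => ?_, fun a ha => ?_,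
    fun a ha b hb h => ?_, fun a ha b hb => ?_⟩
  · exact clo_fun (PA ι) (pk ι hd) ∅ 2 ha ha
  · exact clo_fun (PA ι) (pk ι hd) ∅ 3 ha ha
  · have h1 := clo_fun (PA ι) (pk ι hd) ∅ 0 ha hb
    have h2 : pk ι hd 0 a b = ((hd a.1 b.2 h).choose, ⊥) := by
      simp only [pk]
      rw [dif_pos h]
    rw [h2] at h1
    obtain ⟨h3, h4, h5⟩ := (hd a.1 b.2 h).choose_spec
    exact ⟨_, h3, h4, h5, h1⟩
  · exact clo_fun (PA ι) (pk ι hd) ∅ 1 ha hb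

variable {ι} {T : Set (A × R)}

/-- A condition: a pair `d`, `r` of elements given by `T` with `0 ≠ r ≤ ι d`. -/
def Cond (ι : BoundedLatticeHom A R) (T : Set (A × R)) (p : A × R) : Prop :=
  (p.1, (⊥ : R)) ∈ T ∧ ((⊥ : A), p.2) ∈ T ∧ p.2 ≠ ⊥ ∧ p.2 ≤ ι p.1

/-- The step of the construction. -/
theorem Good.step (hι : Function.Injective ι) (hT : Good ι T) {p u : A × R} (hp : Cond ι T p)
    (hu : u ∈ T) :
    ∃ q, Cond ι T q ∧ q.1 ≤ p.1 ∧ q.2 ≤ p.2 ∧ ι q.1 ≤ p.2 ∧ (q.1 ≤ u.1 ∨ q.1 ≤ u.1ᶜ) ∧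
      (q.2 ≤ u.2 ∨ q.2 ≤ u.2ᶜ) := by
  obtain ⟨h1, h2, h3, h4⟩ := hp
  have hnd : ¬ Disjoint (ι p.1) p.2 := fun h => h3 (le_bot_iff.1 (by
    rw [← disjoint_iff.1 h]
    exact le_inf h4 le_rfl))
  obtain ⟨d, hd0, hdp, hdr, hdT⟩ := hT.dn _ h1 _ h2 hnd
  -- decide `u.1`
  obtain ⟨d', hd'0, hd'd, hd'u, hd'T⟩ : ∃ d' : A, d' ≠ ⊥ ∧ d' ≤ d ∧ (d' ≤ u.1 ∨ d' ≤ u.1ᶜ) ∧
      (d', (⊥ : R)) ∈ T := by
    by_cases h : d ⊓ u.1 = ⊥
    · refine ⟨d, hd0, le_rfl, Or.inr ?_, hdT⟩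
      exact le_compl_iff_disjoint_right.2 (disjoint_iff.2 h)
    · refine ⟨d ⊓ u.1, h, inf_le_left, Or.inl inf_le_right, ?_⟩
      have := hT.inf _ hdT _ hu
      have e : (d, (⊥ : R)) ⊓ u = (d ⊓ u.1, ⊥) := Prod.ext rfl (bot_inf_eq _)
      rwa [e] at this
  have hd'r : ι d' ≤ p.2 := (OrderHomClass.mono ι hd'd).trans hdr
  have hrT : ((⊥ : A), ι d' ⊓ p.2) ∈ T := hT.rn (d', ⊥) hd'T (⊥, p.2) h2
  rw [inf_eq_left.2 hd'r] at hrT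
  have hιd' : ι d' ≠ ⊥ := by
    intro h
    exact hd'0 (hι (h.trans (map_bot ι).symm))
  obtain ⟨r', hr'0, hr'd, hr'u, hr'T⟩ : ∃ r' : R, r' ≠ ⊥ ∧ r' ≤ ι d' ∧ (r' ≤ u.2 ∨ r' ≤ u.2ᶜ) ∧
      ((⊥ : A), r') ∈ T := by
    by_cases h : ι d' ⊓ u.2 = ⊥
    · refine ⟨ι d', hιd', le_rfl, Or.inr ?_, hrT⟩
      exact le_compl_iff_disjoint_right.2 (disjoint_iff.2 h)
    · refine ⟨ι d' ⊓ u.2, h, inf_le_left, Or.inl inf_le_right, ?_⟩
      exact hT.rn _ hd'T _ hu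
  exact ⟨(d', r'), ⟨hd'T, hr'T, hr'0, hr'd⟩, hd'd.trans hdp, hr'd.trans hd'r, hd'r, hd'u, hr'u⟩

/-- The generic sequence. -/
theorem Good.seq (hι : Function.Injective ι) (hT : Good ι T) (hc : T.Countable) {p₀ : A × R}
    (hp₀ : Cond ι T p₀) :
    ∃ p : ℕ → A × R, p 0 = p₀ ∧ (∀ n, Cond ι T (p n)) ∧ (∀ n, (p (n + 1)).1 ≤ (p n).1) ∧
      (∀ n, (p (n + 1)).2 ≤ (p n).2) ∧ (∀ n, ι (p (n + 1)).1 ≤ (p n).2) ∧
      ∀ u ∈ T, ∃ n, ((p n).1 ≤ u.1 ∨ (p n).1 ≤ u.1ᶜ) ∧ ((p n).2 ≤ u.2 ∨ (p n).2 ≤ u.2ᶜ) := by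
  obtain ⟨e, he⟩ := hc.exists_eq_range ⟨⊥, hT.bot⟩
  have heT : ∀ n, e n ∈ T := fun n => by rw [he]; exact ⟨n, rfl⟩
  choose nx h1 h2 h3 h4 h5 h6 using fun (n : ℕ) (p : {p // Cond ι T p}) =>
    hT.step hι p.2 (heT n)
  set p : ℕ → {p // Cond ι T p} := fun n =>
    Nat.rec ⟨p₀, hp₀⟩ (fun n q => ⟨nx n q, h1 n q⟩) n with hp
  refine ⟨fun n => (p n).1, rfl, fun n => (p n).2, fun n => h2 n (p n), fun n => h3 n (p n),
    fun n => h4 n (p n), fun u hu => ?_⟩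
  rw [he] at hu
  obtain ⟨n, rfl⟩ := hu
  exact ⟨n + 1, h5 n (p n), h6 n (p n)⟩

theorem closed_of_good (hT : Good ι T) : (PA ι).Closed T :=
  ⟨hT.bot, hT.top, hT.inf, hT.sup, hT.compl⟩

/-- Every condition gives a co-end. -/
theorem Good.coend (hι : Function.Injective ι) (hT : Good ι T) (hc : T.Countable) {p₀ : A × R}
    (hp₀ : Cond ι T p₀) :
    ∃ Γ : Set T, ((PA ι).sub (closed_of_good hT)).IsCoend Γ ∧
      ∀ u : T, (p₀.1 ≤ u.1.1 ∨ p₀.2 ≤ u.1.2) → u ∈ Γ := by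
  obtain ⟨p, hp0, hcond, hd, hr, hdr, hdec⟩ := hT.seq hι hc hp₀
  have had : ∀ {m n}, m ≤ n → (p n).1 ≤ (p m).1 :=
    fun h => antitone_nat_of_succ_le (f := fun n => (p n).1) hd h
  have har : ∀ {m n}, m ≤ n → (p n).2 ≤ (p m).2 :=
    fun h => antitone_nat_of_succ_le (f := fun n => (p n).2) hr h
  have hne1 : ∀ n, (p n).1 ≠ ⊥ := by
    intro n h
    apply (hcond n).2.2.1
    rw [← le_bot_iff]
    refine (hcond n).2.2.2.trans ?_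
    rw [h, map_bot]
  have hne2 : ∀ n, (p n).2 ≠ ⊥ := fun n => (hcond n).2.2.1
  set Γ : Set T := {u | ∃ n, (p n).1 ≤ u.1.1 ∨ (p n).2 ≤ u.1.2} with hΓ
  -- elements outside `Γ`
  have hout : ∀ u : T, u ∉ Γ → ∃ n, (p n).1 ≤ u.1.1ᶜ ∧ (p n).2 ≤ u.1.2ᶜ := by
    intro u hu
    obtain ⟨n, h1, h2⟩ := hdec u.1 u.2
    refine ⟨n, h1.resolve_left fun h => hu ⟨n, Or.inl h⟩, h2.resolve_left fun h => hu ⟨n, Or.inr h⟩⟩
  have hprime : ∀ a b : T, (((PA ι).sub (closed_of_good hT)).add a b : T) ∈ Γ →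
      a ∈ Γ ∨ b ∈ Γ := by
    intro a b hab
    by_contra hcon
    push Not at hcon
    obtain ⟨n, h1, h2⟩ := hout a hcon.1
    obtain ⟨k, h3, h4⟩ := hout b hcon.2
    obtain ⟨l, h5⟩ := hab
    rcases h5 with h5 | h5
    · have h6 : (p l).1 ≤ a.1.1 ⊔ b.1.1 := h5
      apply hne1 (max l (max n k))
      rw [← le_bot_iff]
      calc (p (max l (max n k))).1 ≤ (a.1.1 ⊔ b.1.1) ⊓ (a.1.1ᶜ ⊓ b.1.1ᶜ) :=
            le_inf ((had (le_max_left _ _)).trans h6) (le_inf ((had (by omega)).trans h1)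
              ((had (by omega)).trans h3))
        _ = ⊥ := by rw [← compl_sup, inf_compl_eq_bot]
    · have h6 : (p l).2 ≤ a.1.2 ⊔ b.1.2 := h5
      apply hne2 (max l (max n k))
      rw [← le_bot_iff]
      calc (p (max l (max n k))).2 ≤ (a.1.2 ⊔ b.1.2) ⊓ (a.1.2ᶜ ⊓ b.1.2ᶜ) :=
            le_inf ((har (le_max_left _ _)).trans h6) (le_inf ((har (by omega)).trans h2)
              ((har (by omega)).trans h4))
        _ = ⊥ := by rw [← compl_sup, inf_compl_eq_bot]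
  have hjn : ∀ u : T, u ∈ Γ → ∃ n, ∀ k, n ≤ k → (p k).2 ≤ jn ι u.1 := by
    rintro u ⟨n, h | h⟩
    · refine ⟨n, fun k hk => ?_⟩
      calc (p k).2 ≤ ι (p k).1 := (hcond k).2.2.2
        _ ≤ ι u.1.1 := OrderHomClass.mono ι ((had hk).trans h)
        _ ≤ jn ι u.1 := le_sup_left
    · exact ⟨n, fun k hk => ((har hk).trans h).trans le_sup_right⟩
  have hround : ∀ a : T, a ∉ Γ → ∃ b : T, b ∉ Γ ∧
      ¬ ((PA ι).sub (closed_of_good hT)).C a (((PA ι).sub (closed_of_good hT)).star b) := by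
    intro a ha
    obtain ⟨n, h1, h2⟩ := hout a ha
    have hpT : p (n + 1) ∈ T := by
      have := hT.sup _ (hcond (n + 1)).1 _ (hcond (n + 1)).2.1
      simpa using this
    refine ⟨⟨(p (n + 1))ᶜ, hT.compl _ hpT⟩, ?_, ?_⟩
    · rintro ⟨k, h3 | h3⟩
      · apply hne1 (max k (n + 1))
        rw [← le_bot_iff, ← inf_compl_eq_bot (a := (p (n + 1)).1)]
        exact le_inf (had (le_max_right _ _)) ((had (le_max_left _ _)).trans h3)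
      · apply hne2 (max k (n + 1))
        rw [← le_bot_iff, ← inf_compl_eq_bot (a := (p (n + 1)).2)]
        exact le_inf (har (le_max_right _ _)) ((har (le_max_left _ _)).trans h3)
    · intro hC
      apply hC
      change Disjoint (jn ι a.1) (jn ι (p (n + 1))ᶜᶜ)
      rw [compl_compl]
      have h3 : jn ι (p (n + 1)) ≤ (p n).2 := sup_le (hdr n) (hr n)
      have h4 : (p n).2 ≤ (jn ι a.1)ᶜ := by
        rw [jn, compl_sup]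
        refine le_inf ?_ h2
        calc (p n).2 ≤ ι (p n).1 := (hcond n).2.2.2
          _ ≤ ι a.1.1ᶜ := OrderHomClass.mono ι h1
          _ = (ι a.1.1)ᶜ := map_compl' ι _
      exact (disjoint_compl_right (a := jn ι a.1)).mono_right (h3.trans h4)
  refine ⟨Γ, ⟨⟨?_, ?_, ?_, hprime, ?_⟩, ?_, hround⟩, fun u hu => ⟨0, by rwa [hp0]⟩⟩
  · exact ⟨(⟨⊤, hT.top⟩ : T), 0, Or.inl le_top⟩
  · rintro ⟨n, h | h⟩
    · exact hne1 n (le_bot_iff.1 h)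
    · exact hne2 n (le_bot_iff.1 h)
  · intro (a : T) ⟨n, h⟩ (b : T) hab
    have h1 : a.1 ⊓ b.1 = a.1 := congrArg Subtype.val hab
    have h2 : a.1 ≤ b.1 := inf_eq_left.1 h1
    exact ⟨n, h.imp (fun h => h.trans h2.1) (fun h => h.trans h2.2)⟩
  · intro a ha b hb
    obtain ⟨n, hn⟩ := hjn a ha
    obtain ⟨k, hk⟩ := hjn b hb
    intro hdis
    apply hne2 (max n k)
    rw [← le_bot_iff, ← disjoint_iff.1 hdis]
    exact le_inf (hn _ (le_max_left _ _)) (hk _ (le_max_right _ _))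
  · intro a h
    by_contra ha
    obtain ⟨b, hb, hab⟩ := hround a ha
    apply hab
    apply h
    refine (hprime b _ ?_).resolve_left hb
    refine ⟨0, Or.inl ?_⟩
    change (p 0).1 ≤ b.1.1 ⊔ b.1.1ᶜ
    rw [sup_compl_eq_top]
    exact le_top

/-- The regularity axiom holds in the countable substructure. -/
theorem Good.reg (hι : Function.Injective ι) (hT : Good ι T) (hc : T.Countable) :
    ((PA ι).sub (closed_of_good hT)).Reg := by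
  intro a b hab
  have key : ∃ p, Cond ι T p ∧ (p.1 ≤ a.1.1 ∨ p.2 ≤ a.1.2) ∧ (p.1 ≤ b.1.1 ∨ p.2 ≤ b.1.2) := by
    have hab' : ¬ Disjoint (ι a.1.1 ⊔ a.1.2) (ι b.1.1 ⊔ b.1.2) := hab
    rw [disjoint_sup_left, disjoint_sup_right, disjoint_sup_right] at hab'
    have h4 : ¬ Disjoint (ι a.1.1) (ι b.1.1) ∨ ¬ Disjoint (ι a.1.1) b.1.2 ∨
        ¬ Disjoint a.1.2 (ι b.1.1) ∨ ¬ Disjoint a.1.2 b.1.2 := by tauto
    rcases h4 with h | h | h | h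
    · have k1 : (a.1.1 ⊓ b.1.1, (⊥ : R)) ∈ T := hT.fst (a.1 ⊓ b.1) (hT.inf _ a.2 _ b.2)
      have k2 : ((⊥ : A), ι (a.1.1 ⊓ b.1.1) ⊓ ⊤) ∈ T :=
        hT.rn (a.1 ⊓ b.1) (hT.inf _ a.2 _ b.2) ⊤ hT.top
      rw [inf_top_eq] at k2
      refine ⟨(a.1.1 ⊓ b.1.1, ι (a.1.1 ⊓ b.1.1)), ⟨k1, k2, fun h' => ?_, le_rfl⟩,
        Or.inl inf_le_left, Or.inl inf_le_right⟩
      apply h
      rw [disjoint_iff, ← map_inf]
      exact h'
    · have k1 : (a.1.1, (⊥ : R)) ∈ T := hT.fst a.1 a.2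
      have k2 : ((⊥ : A), ι a.1.1 ⊓ b.1.2) ∈ T := hT.rn a.1 a.2 b.1 b.2
      exact ⟨(a.1.1, ι a.1.1 ⊓ b.1.2), ⟨k1, k2, fun h' => h (disjoint_iff.2 h'), inf_le_left⟩,
        Or.inl le_rfl, Or.inr inf_le_right⟩
    · have k1 : (b.1.1, (⊥ : R)) ∈ T := hT.fst b.1 b.2
      have k2 : ((⊥ : A), ι b.1.1 ⊓ a.1.2) ∈ T := hT.rn b.1 b.2 a.1 a.2
      exact ⟨(b.1.1, ι b.1.1 ⊓ a.1.2), ⟨k1, k2, fun h' => h (disjoint_iff.2 h').symm,
        inf_le_left⟩, Or.inr inf_le_right, Or.inl le_rfl⟩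
    · have k1 : ((⊤ : A), (⊥ : R)) ∈ T := hT.fst ⊤ hT.top
      have k2 : ((⊥ : A), a.1.2 ⊓ b.1.2) ∈ T := hT.snd (a.1 ⊓ b.1) (hT.inf _ a.2 _ b.2)
      refine ⟨(⊤, a.1.2 ⊓ b.1.2), ⟨k1, k2, fun h' => h (disjoint_iff.2 h'), ?_⟩,
        Or.inr inf_le_left, Or.inr inf_le_right⟩
      rw [map_top]
      exact le_top
  obtain ⟨p, hp, hpa, hpb⟩ := key
  obtain ⟨Γ, hΓ, hm⟩ := hT.coend hι hc hp
  exact ⟨Γ, hΓ, hm a hpa, hm b hpb⟩

end Pool.Agent.R620.NC
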