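import Pool.Agent.R620.NC.Pair

/-!
# The regularity axiom is not first-order
-/

set_option autoImplicit false

open TopologicalSpace Heyting

namespace Pool.Agent.R620.NC

/-- The Cantor space. -/
abbrev X : Type := ℕ → Bool

/-- The algebra of regular open sets. -/
abbrev RO : Type := Heyting.Regular (Opens X)

/-- A regular element of the lattice of open sets. -/
def mkR (a : Opens X) (h : Heyting.IsRegular a) : RO := ⟨a, h⟩

@[simp] theorem mkR_val (a : Opens X) (h : Heyting.IsRegular a) : (mkR a h).val = a := rfl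

theorem clopen_isCompl (U : Clopens X) : IsCompl U.toOpens (Uᶜ).toOpens := by
  constructor
  · rw [disjoint_iff]
    ext x
    simp
  · rw [codisjoint_iff]
    ext x
    simp

theorem clopen_regular (U : Clopens X) : Heyting.IsRegular U.toOpens := by
  have h := clopen_isCompl U
  rw [Heyting.IsRegular, h.compl_eq, h.symm.compl_eq]

/-- The embedding of the clopen sets. -/
def io : BoundedLatticeHom (Clopens X) RO where
  toFun U := mkR U.toOpens (clopen_regular U)
  map_sup' a b := by
    apply Regular.coe_injective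
    rw [Regular.coe_sup]
    have e : (mkR a.toOpens (clopen_regular a)).val ⊔ (mkR b.toOpens (clopen_regular b)).val
        = (a ⊔ b).toOpens := by
      ext x
      simp
    rw [e, (clopen_regular (a ⊔ b)).eq]
    rfl
  map_inf' a b := by
    apply Regular.coe_injective
    rfl
  map_top' := by
    apply Regular.coe_injective
    rfl
  map_bot' := by
    apply Regular.coe_injective
    rfl

theorem io_val (U : Clopens X) : (io U).val = U.toOpens := rfl

theorem io_injective : Function.Injective io := by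
  intro a b h
  have : a.toOpens = b.toOpens := congrArg Regular.val h
  ext x
  exact Set.ext_iff.1 (congrArg Opens.carrier this) x

/-- The cylinder of the sequences which agree with `z` up to `n`. -/
def cyl (n : ℕ) (z : X) : Clopens X where
  carrier := {w | ∀ l < n, w l = z l}
  isClopen' := by
    have : {w : X | ∀ l < n, w l = z l} = ⋂ l ∈ Finset.range n, (fun w : X => w l) ⁻¹' {z l} := by
      ext w
      simp
    rw [this]
    exact isClopen_biInter_finset fun l _ => (isClopen_discrete _).preimage (continuous_apply l)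

theorem mem_cyl {n : ℕ} {z w : X} : w ∈ cyl n z ↔ ∀ l < n, w l = z l := Iff.rfl

theorem exists_cyl {W : Set X} (hW : IsOpen W) {z : X} (hz : z ∈ W) :
    ∃ n, (cyl n z : Set X) ⊆ W := by
  obtain ⟨I, u, h1, h2⟩ := isOpen_pi_iff.1 hW z hz
  refine ⟨I.sup id + 1, fun w' hw' => h2 fun i hi => ?_⟩
  rw [mem_cyl.1 hw' i (Nat.lt_succ_of_le (Finset.le_sup (f := id) hi))]
  exact (h1 i hi).2

theorem exists_mem {U : Opens X} (h : U ≠ ⊥) : ∃ z, z ∈ U := by
  by_contra hcon
  push Not at hcon
  apply h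
  ext z
  simpa using hcon z

theorem dense_clopen (d : Clopens X) (r : RO) (h : ¬ Disjoint (io d) r) :
    ∃ d', d' ≠ ⊥ ∧ d' ≤ d ∧ io d' ≤ r := by
  have h1 : (io d).val ⊓ r.val ≠ ⊥ := by
    intro h2
    apply h
    rw [disjoint_iff]
    apply Regular.coe_injective
    exact h2
  obtain ⟨z, hz⟩ := exists_mem h1
  obtain ⟨n, hn⟩ := exists_cyl ((io d).val ⊓ r.val).2 hz
  refine ⟨cyl n z, fun h2 => ?_, fun w hw => (hn hw).1, ?_⟩
  · have h3 : z ∈ cyl n z := fun _ _ => rfl
    rw [h2] at h3
    exact h3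
  · rw [← Regular.coe_le_coe]
    exact fun w hw => (hn hw).2

/-- The sequence which agrees with `z` before `n` and differs from it at `n`. -/
def flip (z : X) (n : ℕ) : X := Function.update z n (!z n)

/-- The sequences whose first difference from `z` is at an even place. -/
def ev (z : X) : Opens X :=
  ⟨{w | ∃ n, w n ≠ z n ∧ (∀ l < n, w l = z l) ∧ Even n}, by
    rw [isOpen_iff_forall_mem_open]
    rintro w ⟨n, h1, h2, h3⟩
    refine ⟨(cyl (n + 1) w : Set X), fun w' hw' => ⟨n, ?_, fun l hl => ?_, h3⟩,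
      (cyl (n + 1) w).isClopen.2, fun _ _ => rfl⟩
    · rw [mem_cyl.1 hw' n (Nat.lt_succ_self n)]
      exact h1
    · rw [mem_cyl.1 hw' l (by omega), h2 l hl]⟩

/-- A regular open set `r` such that no neighbourhood of `z` is below `r` or its complement. -/
theorem exists_split (z : X) : ∃ r : RO, ∀ d : Clopens X, z ∈ d → ¬ io d ≤ r ∧ ¬ io d ≤ rᶜ := by
  refine ⟨Regular.toRegular (ev z), fun d hz => ?_⟩
  obtain ⟨n, hn⟩ := exists_cyl d.isClopen.2 hz
  constructor
  · intro h
    -- the cylinder at the first difference `2 n + 1`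
    set w : X := flip z (2 * n + 1) with hw
    have hwd : w ∈ d := hn fun l hl => by
      rw [hw, flip, Function.update_of_ne (by omega)]
    have h1 : w ∈ (ev z)ᶜᶜ := Regular.coe_le_coe.2 h hwd
    have h2 : Disjoint (cyl (2 * n + 2) w).toOpens (ev z) := by
      rw [disjoint_iff]
      ext w'
      simp only [Opens.coe_inf, Set.mem_inter_iff, Opens.coe_bot, Set.mem_empty_iff_false, iff_false,
        not_and]
      rintro h3 ⟨k, h4, h5, h6⟩
      have h3' : ∀ l < 2 * n + 2, w' l = w l := h3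
      have h7 : ¬ (2 * n + 1 < k) := by
        intro h8
        have h9 := h5 (2 * n + 1) h8
        rw [h3' (2 * n + 1) (by omega), hw, flip, Function.update_self] at h9
        exact absurd h9 (by simp)
      have h8 : k ≠ 2 * n + 1 := by
        rintro rfl
        exact absurd h6 (by simp)
      apply h4
      rw [h3' k (by omega), hw, flip, Function.update_of_ne h8]
    have h3 : (cyl (2 * n + 2) w).toOpens ≤ (ev z)ᶜ := le_compl_iff_disjoint_right.2 h2
    have h4 : w ∈ ((ev z)ᶜ ⊓ (ev z)ᶜᶜ : Opens X) := ⟨h3 (fun _ _ => rfl), h1⟩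
    rw [inf_compl_eq_bot] at h4
    exact h4
  · intro h
    set w : X := flip z (2 * n) with hw
    have hwd : w ∈ d := hn fun l hl => by
      rw [hw, flip, Function.update_of_ne (by omega)]
    have h1 : w ∈ ((Regular.toRegular (ev z))ᶜ).val := Regular.coe_le_coe.2 h hwd
    have h2 : w ∈ ev z := by
      refine ⟨2 * n, ?_, fun l hl => ?_, even_two_mul n⟩
      · rw [hw, flip, Function.update_self]
        simp
      · rw [hw, flip, Function.update_of_ne (by omega)]
    have h3 : w ∈ (Regular.toRegular (ev z)).val := (le_compl_compl : ev z ≤ (ev z)ᶜᶜ) h2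
    have h4 : w ∈ ((Regular.toRegular (ev z)).val ⊓ ((Regular.toRegular (ev z)).val)ᶜ : Opens X) :=
      ⟨h3, h1⟩
    rw [inf_compl_eq_bot] at h4
    exact h4

/-- The regularity axiom fails in the whole algebra. -/
theorem not_reg : ¬ (PA io).Reg := by
  intro hreg
  have hab : (PA io).C ((⊤ : Clopens X), (⊥ : RO)) ((⊥ : Clopens X), (⊤ : RO)) := by
    change ¬ Disjoint (io ⊤ ⊔ ⊥) (io ⊥ ⊔ ⊤)
    rw [map_top, map_bot, top_sup_eq, bot_sup_eq, top_disjoint]
    intro h
    have h1 : (⊤ : RO).val = (⊥ : RO).val := by rw [h]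
    have h2 : (fun _ => false : X) ∈ (⊤ : Opens X) := trivial
    have h3 : (⊤ : Opens X) = ⊥ := h1
    rw [h3] at h2
    exact h2
  obtain ⟨Γ, hΓ, ha, hb⟩ := hreg _ _ hab
  have hup : ∀ a b : Clopens X × RO, a ∈ Γ → a ≤ b → b ∈ Γ := fun a b h1 h2 =>
    hΓ.clan.up a h1 b (inf_eq_left.2 h2)
  have hpr : ∀ a b : Clopens X × RO, a ⊔ b ∈ Γ → a ∈ Γ ∨ b ∈ Γ := hΓ.clan.prime
  have hcon : ∀ a b : Clopens X × RO, a ∈ Γ → b ∈ Γ → ¬ Disjoint (jn io a) (jn io b) :=
    fun a b h1 h2 => hΓ.clan.con a h1 b h2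
  -- the point
  have hz : ∃ z : X, ∀ d : Clopens X, (d, (⊥ : RO)) ∈ Γ → z ∈ d := by
    by_contra hcon'
    push Not at hcon'
    choose d hd hzd using hcon'
    obtain ⟨t, ht⟩ := isCompact_univ.elim_finite_subcover (fun z : X => ((d z)ᶜ : Clopens X).carrier)
      (fun z => ((d z)ᶜ : Clopens X).isClopen.2) (fun z _ => Set.mem_iUnion.2 ⟨z, hzd z⟩)
    have hfin : ∀ s : Finset X, ((s.sup fun z => (d z)ᶜ), (⊥ : RO)) ∉ Γ := by
      intro s
      classical
      induction s using Finset.induction_on with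
      | empty =>
        intro h
        exact hΓ.clan.zero h
      | insert z s hz ih =>
        intro h
        rw [Finset.sup_insert] at h
        have e : (((d z)ᶜ ⊔ s.sup fun z => (d z)ᶜ : Clopens X), (⊥ : RO)) =
            ((d z)ᶜ, ⊥) ⊔ ((s.sup fun z => (d z)ᶜ), ⊥) := Prod.ext rfl (sup_bot_eq _).symm
        rw [e] at h
        rcases hpr _ _ h with h | h
        · apply hcon _ _ h (hd z)
          change Disjoint (io (d z)ᶜ ⊔ ⊥) (io (d z) ⊔ ⊥)
          rw [sup_bot_eq, sup_bot_eq, map_compl']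
          exact disjoint_compl_left
        · exact ih h
    apply hfin t
    have : (t.sup fun z => (d z)ᶜ) = ⊤ := by
      rw [eq_top_iff]
      intro w _
      obtain ⟨z, hzt, hw⟩ := Set.mem_iUnion₂.1 (ht (Set.mem_univ w))
      exact (Finset.le_sup (f := fun z => (d z)ᶜ) hzt) hw
    rw [this]
    exact ha
  obtain ⟨z, hz⟩ := hz
  obtain ⟨r, hr⟩ := exists_split z
  -- if `(0, s)` is not in `Γ` then `z` has a neighbourhood below the complement of `s`
  have key : ∀ s : RO, ((⊥ : Clopens X), s) ∉ Γ → ∃ d : Clopens X, z ∈ d ∧ io d ≤ sᶜ := by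
    intro s hs
    obtain ⟨y, hy, hC⟩ := hΓ.round _ hs
    have hC' : Disjoint (jn io ((⊥ : Clopens X), s)) (jn io (y : Clopens X × RO)ᶜ) := by
      by_contra h
      exact hC h
    have h1 : (y.1, (⊥ : RO)) ∉ Γ := fun h => hy (hup _ _ h ⟨le_rfl, bot_le⟩)
    have h2 : (y.1ᶜ, (⊥ : RO)) ∈ Γ := by
      refine (hpr (y.1, ⊥) (y.1ᶜ, ⊥) ?_).resolve_left h1
      have e : ((y.1, (⊥ : RO)) ⊔ (y.1ᶜ, ⊥) : Clopens X × RO) = (⊤, ⊥) :=
        Prod.ext sup_compl_eq_top (sup_bot_eq _)
      rw [e]
      exact ha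
    refine ⟨y.1ᶜ, hz _ h2, ?_⟩
    have h3 : Disjoint s (io y.1ᶜ) := hC'.mono le_sup_right le_sup_left
    exact le_compl_iff_disjoint_left.2 h3
  have hor : ((⊥ : Clopens X), r) ∈ Γ ∨ ((⊥ : Clopens X), rᶜ) ∈ Γ := by
    apply hpr
    have e : (((⊥ : Clopens X), r) ⊔ (⊥, rᶜ) : Clopens X × RO) = (⊥, ⊤) :=
      Prod.ext (sup_bot_eq _) sup_compl_eq_top
    rw [e]
    exact hb
  have hdis : Disjoint (jn io ((⊥ : Clopens X), r)) (jn io ((⊥ : Clopens X), rᶜ)) := by
    simp only [jn, map_bot, bot_sup_eq]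
    exact disjoint_compl_right
  rcases hor with h | h
  · obtain ⟨d, hd, hdr⟩ := key rᶜ fun h' => hcon _ _ h h' hdis
    rw [compl_compl] at hdr
    exact (hr d hd).1 hdr
  · obtain ⟨d, hd, hdr⟩ := key r fun h' => hcon _ _ h' h hdis
    exact (hr d hd).2 hdr

/-- A substructure of a contact algebra is a contact algebra. -/
theorem sub_isCA {A R : Type} [BooleanAlgebra A] [BooleanAlgebra R] {ι : BoundedLatticeHom A R}
    (hι : Function.Injective ι) {T : Set (A × R)} (hT : Good ι T) :
    ((PA ι).sub (closed_of_good hT)).IsCA := by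
  have h := PA_isCA ι hι
  set U : BooleanSubalgebra (A × R) :=
    { carrier := T
      supClosed' := fun a ha b hb => hT.sup a ha b hb
      infClosed' := fun a ha b hb => hT.inf a ha b hb
      compl_mem' := fun {a} ha => hT.compl a ha
      bot_mem' := hT.bot } with hU
  refine ⟨⟨(inferInstance : BooleanAlgebra U), fun _ _ => rfl, fun _ _ => rfl, fun _ => rfl, rfl,
    rfl⟩, ?_, ?_, ?_, ?_⟩
  · intro a b hab
    obtain ⟨h1, h2⟩ := h.c1 _ _ hab
    exact ⟨fun h3 => h1 (congrArg Subtype.val h3), fun h3 => h2 (congrArg Subtype.val h3)⟩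
  · exact fun a b c => h.c2 _ _ _
  · exact fun a b => h.c3 _ _
  · intro a b hab
    exact h.c4 _ _ fun h1 => hab (Subtype.ext h1)

/-- No set of first-order formulas axiomatizes the regularity axiom. -/
theorem reg_main (Φ : Set Fm) :
    ¬ ∀ S : Str.{0}, S.IsCA → ((∀ φ ∈ Φ, ∀ v, S.Sat v φ) ↔ S.Reg) := by
  intro h
  have hT := good_clo io dense_clopen
  have hc : (clo (PA io) (pk io dense_clopen) ∅).Countable := clo_countable _ _ Set.countable_empty
  have h1 := (h _ (sub_isCA io_injective hT)).2 (hT.reg io_injective hc)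
  apply not_reg
  rw [← h _ (PA_isCA io io_injective)]
  exact fun φ hφ w => valid_of_clo (PA io) (pk io dense_clopen) ∅ φ (h1 φ hφ) w

end Pool.Agent.R620.NC
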