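import Pool.Agent.R620.NC.Types

/-!
# The space of clans of the power set algebra of a graph
-/

set_option autoImplicit false

namespace Pool.Agent.R620.NC

variable {V : Type} (adj : V → V → Prop)

/-- Clans of the power set algebra. -/
structure IsCl (Γ : Set (Set V)) : Prop where
  univ : Set.univ ∈ Γ
  empty : ∅ ∉ Γ
  up : ∀ a ∈ Γ, ∀ b, a ⊆ b → b ∈ Γ
  prime : ∀ a b, a ∪ b ∈ Γ → a ∈ Γ ∨ b ∈ Γ
  con : ∀ a ∈ Γ, ∀ b ∈ Γ, ∃ x ∈ a, ∃ y ∈ b, adj x y

/-- The space of clans. -/
def CX : Type := {Γ : Set (Set V) // IsCl adj Γ}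

variable {adj}

/-- The set of the clans containing `a`. -/
def g (a : Set V) : Set (CX adj) := {Γ | a ∈ Γ.1}

theorem mem_g {a : Set V} {Γ : CX adj} : Γ ∈ g a ↔ a ∈ Γ.1 := Iff.rfl

theorem g_mono {a b : Set V} (h : a ⊆ b) : (g a : Set (CX adj)) ⊆ g b :=
  fun Γ hΓ => Γ.2.up a hΓ b h

theorem g_union (a b : Set V) : (g (a ∪ b) : Set (CX adj)) = g a ∪ g b := by
  ext Γ
  refine ⟨fun h => Γ.2.prime a b h, ?_⟩
  rintro (h | h)
  · exact Γ.2.up a h _ Set.subset_union_left
  · exact Γ.2.up b h _ Set.subset_union_right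

theorem g_empty : (g ∅ : Set (CX adj)) = ∅ := by
  ext Γ
  exact ⟨fun h => Γ.2.empty h, fun h => h.elim⟩

theorem g_univ : (g Set.univ : Set (CX adj)) = Set.univ := by
  ext Γ
  exact ⟨fun _ => trivial, fun _ => Γ.2.univ⟩

/-- The sets `g a` are a closed base. -/
instance : TopologicalSpace (CX adj) where
  IsOpen U := ∀ Γ ∈ U, ∃ a, a ∉ Γ.1 ∧ (g a)ᶜ ⊆ U
  isOpen_univ Γ _ := ⟨∅, Γ.2.empty, fun _ _ => trivial⟩
  isOpen_inter U U' h h' := by
    rintro Γ ⟨hU, hU'⟩
    obtain ⟨a, ha, hau⟩ := h Γ hU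
    obtain ⟨b, hb, hbu⟩ := h' Γ hU'
    refine ⟨a ∪ b, fun hab => ?_, ?_⟩
    · rcases Γ.2.prime a b hab with h1 | h1
      exacts [ha h1, hb h1]
    · rw [g_union, Set.compl_union]
      exact Set.inter_subset_inter hau hbu
  isOpen_sUnion S h := by
    rintro Γ ⟨U, hU, hΓ⟩
    obtain ⟨a, ha, hau⟩ := h U hU Γ hΓ
    exact ⟨a, ha, hau.trans (Set.subset_sUnion_of_mem hU)⟩

theorem isOpen_cx {U : Set (CX adj)} : IsOpen U ↔ ∀ Γ ∈ U, ∃ a, a ∉ Γ.1 ∧ (g a)ᶜ ⊆ U := Iff.rfl

theorem isOpen_g_compl (a : Set V) : IsOpen ((g a)ᶜ : Set (CX adj)) :=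
  fun _ hΓ => ⟨a, hΓ, subset_rfl⟩

theorem isClosed_g (a : Set V) : IsClosed (g a : Set (CX adj)) := ⟨isOpen_g_compl a⟩

theorem mem_closure_cx {S : Set (CX adj)} {Γ : CX adj} :
    Γ ∈ closure S ↔ ∀ a, S ⊆ g a → a ∈ Γ.1 := by
  constructor
  · intro h a ha
    exact (isClosed_g a).closure_subset_iff.2 ha h
  · intro h
    by_contra hcon
    obtain ⟨a, ha, hau⟩ := isOpen_cx.1 isClosed_closure.isOpen_compl Γ hcon
    apply ha
    apply h
    intro Δ hΔ
    by_contra hΔ'
    exact hau hΔ' (subset_closure hΔ)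

theorem compl_subset_g (a : Set V) : ((g a)ᶜ : Set (CX adj)) ⊆ g aᶜ := by
  intro Γ hΓ
  have h : a ∪ aᶜ ∈ Γ.1 := by
    rw [Set.union_compl_self]
    exact Γ.2.univ
  exact (Γ.2.prime a aᶜ h).resolve_left hΓ

variable (hr : ∀ x, adj x x) (hs : ∀ x y, adj x y → adj y x)

/-- The clan of the sets containing one of two adjacent vertices. -/
def pc {x y : V} (h : adj x y) (hr : ∀ x, adj x x) (hs : ∀ x y, adj x y → adj y x) : CX adj :=
  ⟨{a | x ∈ a ∨ y ∈ a}, {
    univ := Or.inl trivial
    empty := fun h => by simp at h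
    up := fun _ ha _ hab => ha.imp (fun h => hab h) (fun h => hab h)
    prime := by
      rintro a b ((h | h) | (h | h))
      exacts [Or.inl (Or.inl h), Or.inr (Or.inl h), Or.inl (Or.inr h), Or.inr (Or.inr h)]
    con := by
      rintro a (ha | ha) b (hb | hb)
      exacts [⟨x, ha, x, hb, hr x⟩, ⟨x, ha, y, hb, h⟩, ⟨y, ha, x, hb, hs _ _ h⟩,
        ⟨y, ha, y, hb, hr y⟩] }⟩

include hr hs in
theorem subset_of_g {a d : Set V} (h : ((g a)ᶜ : Set (CX adj)) ⊆ g d) : aᶜ ⊆ d := by
  intro x hx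
  have h1 : pc (hr x) hr hs ∈ ((g a)ᶜ : Set (CX adj)) := by
    rintro (h2 | h2) <;> exact hx h2
  rcases h h1 with h2 | h2 <;> exact h2

include hr hs in
theorem closure_compl_g (a : Set V) : closure ((g a)ᶜ : Set (CX adj)) = g aᶜ := by
  apply subset_antisymm
  · exact (isClosed_g _).closure_subset_iff.2 (compl_subset_g a)
  · intro Γ hΓ
    rw [mem_closure_cx]
    intro d hd
    exact Γ.2.up _ hΓ _ (subset_of_g hr hs hd)

include hr hs in
theorem interior_g (a : Set V) : interior (g a : Set (CX adj)) = (g aᶜ)ᶜ := by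
  rw [← closure_compl_g hr hs, ← interior_compl, compl_compl]

include hr hs in
theorem regular_g (a : Set V) : closure (interior (g a : Set (CX adj))) = g a := by
  rw [interior_g hr hs, closure_compl_g hr hs, compl_compl]

include hr hs in
theorem exists_g (F : Set (CX adj)) (hF : closure (interior F) = F) : ∃ a, g a = F := by
  set a : Set V := {x | pc (hr x) hr hs ∈ interior F} with ha
  refine ⟨a, ?_⟩
  rw [← hF]
  ext Γ
  rw [mem_closure_cx, mem_g]
  constructor
  · intro h d hd
    refine Γ.2.up _ h _ fun x hx => ?_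
    rcases hd hx with h2 | h2 <;> exact h2
  · intro h
    apply h
    intro Δ hΔ
    obtain ⟨b, hb, hbu⟩ := isOpen_cx.1 isOpen_interior Δ hΔ
    refine Δ.2.up bᶜ (compl_subset_g b hb) _ fun x hx => hbu ?_
    rintro (h2 | h2) <;> exact hx h2

include hr hs in
theorem g_injective : Function.Injective (g : Set V → Set (CX adj)) := by
  have key : ∀ a b : Set V, (g a : Set (CX adj)) ⊆ g b → a ⊆ b := by
    intro a b h x hx
    have h1 : pc (hr x) hr hs ∈ (g a : Set (CX adj)) := Or.inl hx
    rcases h h1 with h2 | h2 <;> exact h2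
  intro a b h
  exact (key a b h.le).antisymm (key b a h.ge)

/-- The isomorphism of the power set algebra onto the algebra of regular closed sets. -/
def G (hr : ∀ x, adj x x) (hs : ∀ x y, adj x y → adj y x) (a : Set V) : (RC (CX adj)).B :=
  ⟨g a, regular_g hr hs a⟩

theorem G_val (a : Set V) : (G hr hs a).1 = g a := rfl

theorem G_surjective : Function.Surjective (G hr hs) := by
  rintro ⟨F, hF⟩
  obtain ⟨a, ha⟩ := exists_g hr hs F hF
  exact ⟨a, Subtype.ext ha⟩

theorem G_injective : Function.Injective (G hr hs) := fun _ _ h =>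
  g_injective hr hs (congrArg Subtype.val h)

theorem val_G (v : ℕ → Set V) : ∀ t : Tm,
    (RC (CX adj)).val (fun n => G hr hs (v n)) t = G hr hs (mval adj v t)
  | .var n => rfl
  | .zero => Subtype.ext g_empty.symm
  | .one => Subtype.ext g_univ.symm
  | .mul s t => by
    have h1 := val_G v s
    have h2 := val_G v t
    apply Subtype.ext
    change closure (interior (((RC (CX adj)).val (fun n => G hr hs (v n)) s).1 ∩
      ((RC (CX adj)).val (fun n => G hr hs (v n)) t).1)) = g (mval adj v s ∩ mval adj v t)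
    rw [h1, h2, G_val, G_val, interior_inter, interior_g hr hs, interior_g hr hs,
      ← Set.compl_union, ← g_union, closure_compl_g hr hs, Set.compl_union, compl_compl,
      compl_compl]
  | .add s t => by
    have h1 := val_G v s
    have h2 := val_G v t
    apply Subtype.ext
    change ((RC (CX adj)).val (fun n => G hr hs (v n)) s).1 ∪
      ((RC (CX adj)).val (fun n => G hr hs (v n)) t).1 = g (mval adj v s ∪ mval adj v t)
    rw [h1, h2, G_val, G_val, g_union]
  | .star s => by
    have h1 := val_G v s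
    apply Subtype.ext
    change closure (((RC (CX adj)).val (fun n => G hr hs (v n)) s).1)ᶜ = g (mval adj v s)ᶜ
    rw [h1, G_val, closure_compl_g hr hs]

theorem con_G (a b : Set V) : (RC (CX adj)).C (G hr hs a) (G hr hs b) ↔
    (PS V adj).C a b := by
  constructor
  · rintro ⟨Γ, h1, h2⟩
    exact Γ.2.con a h1 b h2
  · rintro ⟨x, hx, y, hy, hxy⟩
    exact ⟨pc hxy hr hs, Or.inl hx, Or.inr hy⟩

theorem sat_G : ∀ (φ : Fm) (v : ℕ → Set V),
    (RC (CX adj)).Sat (fun n => G hr hs (v n)) φ ↔ (PS V adj).Sat v φ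
  | .eq s t, v => by
    change (RC (CX adj)).val _ s = (RC (CX adj)).val _ t ↔ mval adj v s = mval adj v t
    rw [val_G, val_G, (G_injective hr hs).eq_iff]
  | .con s t, v => by
    change (RC (CX adj)).C ((RC (CX adj)).val _ s) ((RC (CX adj)).val _ t) ↔ _
    rw [val_G, val_G, con_G]
    exact Iff.rfl
  | .neg φ, v => not_congr (sat_G φ v)
  | .and φ ψ, v => and_congr (sat_G φ v) (sat_G ψ v)
  | .all n φ, v => by
    have e : ∀ b, (fun k => G hr hs (Function.update v n b k)) =
        Function.update (fun k => G hr hs (v k)) n (G hr hs b) := by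
      intro b
      funext k
      by_cases hk : k = n
      · subst hk
        simp
      · simp [Function.update_of_ne hk]
    constructor
    · intro h (b : Set V)
      have h1 : (RC (CX adj)).Sat (fun k => G hr hs (Function.update v n b k)) φ := by
        rw [e b]
        exact h (G hr hs b)
      exact (sat_G φ (Function.update v n b)).1 h1
    · intro h b
      obtain ⟨a, rfl⟩ := G_surjective hr hs b
      rw [← e]
      exact (sat_G φ (Function.update v n a)).2 (h a)

include hr hs in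
/-- The clans of the algebra of regular closed sets are given by points. -/
theorem clansArePoints : ClansArePoints (CX adj) := by
  intro Δ hΔ
  have hup : ∀ a b : Set V, G hr hs a ∈ Δ → a ⊆ b → G hr hs b ∈ Δ := by
    intro a b ha hab
    refine hΔ.up _ ha _ ?_
    apply Subtype.ext
    change closure (interior (g a ∩ g b)) = g a
    rw [Set.inter_eq_left.2 (g_mono hab), regular_g hr hs]
  refine ⟨⟨{a | G hr hs a ∈ Δ}, ?_, ?_, ?_, ?_, ?_⟩, ?_⟩
  · obtain ⟨F, hF⟩ := hΔ.nonempty
    obtain ⟨a, rfl⟩ := G_surjective hr hs F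
    exact hup a _ hF (Set.subset_univ a)
  · intro h
    apply hΔ.zero
    have : (RC (CX adj)).zero = G hr hs ∅ := Subtype.ext g_empty.symm
    rw [this]
    exact h
  · exact fun a ha b hab => hup a b ha hab
  · intro a b hab
    apply hΔ.prime
    have : (RC (CX adj)).add (G hr hs a) (G hr hs b) = G hr hs (a ∪ b) :=
      Subtype.ext (g_union a b).symm
    rw [this]
    exact hab
  · intro a ha b hb
    exact (con_G hr hs a b).1 (hΔ.con _ ha _ hb)
  · ext F
    obtain ⟨a, rfl⟩ := G_surjective hr hs F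
    exact Iff.rfl

instance : T0Space (CX adj) := by
  refine ⟨fun Γ Δ h => Subtype.ext (Set.ext fun a => ?_)⟩
  exact (h.mem_closed_iff (isClosed_g a))

instance : CompactSpace (CX adj) := by
  refine ⟨isCompact_iff_ultrafilter_le_nhds.2 fun F _ => ?_⟩
  refine ⟨⟨{a | g a ∈ F}, ?_, ?_, ?_, ?_, ?_⟩, trivial, ?_⟩
  · change g Set.univ ∈ F
    rw [g_univ]
    exact Filter.univ_mem
  · intro h
    change g ∅ ∈ F at h
    rw [g_empty] at h
    exact F.empty_notMem h
  · exact fun a ha b hab => Filter.mem_of_superset ha (g_mono hab)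
  · intro a b hab
    change g (a ∪ b) ∈ F at hab
    rw [g_union] at hab
    exact Ultrafilter.union_mem_iff.1 hab
  · intro a ha b hb
    obtain ⟨Γ, h1, h2⟩ := Ultrafilter.nonempty_of_mem (Filter.inter_mem ha hb)
    exact Γ.2.con a h1 b h2
  · intro U hU
    obtain ⟨U', hU', hopen, hmem⟩ := mem_nhds_iff.1 hU
    obtain ⟨a, ha, hau⟩ := isOpen_cx.1 hopen _ hmem
    have : (g a)ᶜ ∈ F := (Ultrafilter.compl_mem_iff_notMem).2 ha
    exact Filter.mem_of_superset this (hau.trans hU')

end Pool.Agent.R620.NC
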