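import Pool.Agent.R620.NC.Defs

/-!
# The power set algebra of a graph and its types
-/

set_option autoImplicit false

namespace Pool.Agent.R620.NC

/-- The power set of a graph; two sets are in contact if some of their elements are adjacent. -/
def PS (V : Type) (adj : V → V → Prop) : Str.{0} where
  B := Set V
  zero := ∅
  one := Set.univ
  mul a b := a ∩ b
  add a b := a ∪ b
  star a := aᶜ
  C a b := ∃ x ∈ a, ∃ y ∈ b, adj x y

/-- All variables of the term are below `K`. -/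
def Tm.bd (K : ℕ) : Tm → Prop
  | .var n => n < K
  | .zero => True
  | .one => True
  | .mul s t => s.bd K ∧ t.bd K
  | .add s t => s.bd K ∧ t.bd K
  | .star s => s.bd K

/-- All variables of the formula are below `K` and its quantifier depth is at most `r`. -/
def Fm.bd (K : ℕ) : ℕ → Fm → Prop
  | _, .eq s t => s.bd K ∧ t.bd K
  | _, .con s t => s.bd K ∧ t.bd K
  | r, .neg φ => φ.bd K r
  | r, .and φ ψ => φ.bd K r ∧ ψ.bd K r
  | 0, .all _ _ => False
  | r + 1, .all n φ => n < K ∧ φ.bd K r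

theorem Tm.bd_mono {K L : ℕ} (h : K ≤ L) : ∀ t : Tm, t.bd K → t.bd L
  | .var n, ht => lt_of_lt_of_le (show n < K from ht) h
  | .zero, _ => trivial
  | .one, _ => trivial
  | .mul s t, ht => ⟨s.bd_mono h ht.1, t.bd_mono h ht.2⟩
  | .add s t, ht => ⟨s.bd_mono h ht.1, t.bd_mono h ht.2⟩
  | .star s, ht => s.bd_mono h ht

theorem Fm.bd_mono {K L : ℕ} (h : K ≤ L) : ∀ {r s : ℕ}, r ≤ s → ∀ φ : Fm, φ.bd K r → φ.bd L s
  | r, s, hr, .eq t u, hφ => by
    cases r <;> cases s <;> exact ⟨t.bd_mono h hφ.1, u.bd_mono h hφ.2⟩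
  | r, s, hr, .con t u, hφ => by
    cases r <;> cases s <;> exact ⟨t.bd_mono h hφ.1, u.bd_mono h hφ.2⟩
  | r, s, hr, .neg φ, hφ => by
    have h1 : φ.bd K r := by cases r <;> exact hφ
    have h2 := φ.bd_mono h hr h1
    cases s <;> exact h2
  | r, s, hr, .and φ ψ, hφ => by
    have h1 : φ.bd K r ∧ ψ.bd K r := by cases r <;> exact hφ
    have h2 := φ.bd_mono h hr h1.1
    have h3 := ψ.bd_mono h hr h1.2
    cases s <;> exact ⟨h2, h3⟩
  | 0, s, hr, .all n φ, hφ => hφ.elim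
  | r + 1, 0, hr, .all n φ, hφ => by omega
  | r + 1, s + 1, hr, .all n φ, hφ => ⟨lt_of_lt_of_le hφ.1 h, φ.bd_mono h (by omega) hφ.2⟩

theorem Tm.exists_bd : ∀ t : Tm, ∃ K, t.bd K
  | .var n => ⟨n + 1, Nat.lt_succ_self n⟩
  | .zero => ⟨0, trivial⟩
  | .one => ⟨0, trivial⟩
  | .mul s t => by
    obtain ⟨K, hK⟩ := s.exists_bd
    obtain ⟨L, hL⟩ := t.exists_bd
    exact ⟨max K L, s.bd_mono (le_max_left _ _) hK, t.bd_mono (le_max_right _ _) hL⟩
  | .add s t => by
    obtain ⟨K, hK⟩ := s.exists_bd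
    obtain ⟨L, hL⟩ := t.exists_bd
    exact ⟨max K L, s.bd_mono (le_max_left _ _) hK, t.bd_mono (le_max_right _ _) hL⟩
  | .star s => s.exists_bd

theorem Fm.exists_bd : ∀ φ : Fm, ∃ K r, φ.bd K r
  | .eq s t => by
    obtain ⟨K, hK⟩ := s.exists_bd
    obtain ⟨L, hL⟩ := t.exists_bd
    exact ⟨max K L, 0, s.bd_mono (le_max_left _ _) hK, t.bd_mono (le_max_right _ _) hL⟩
  | .con s t => by
    obtain ⟨K, hK⟩ := s.exists_bd
    obtain ⟨L, hL⟩ := t.exists_bd
    exact ⟨max K L, 0, s.bd_mono (le_max_left _ _) hK, t.bd_mono (le_max_right _ _) hL⟩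
  | .neg φ => by
    obtain ⟨K, r, h⟩ := φ.exists_bd
    exact ⟨K, r, by cases r <;> exact h⟩
  | .and φ ψ => by
    obtain ⟨K, r, h⟩ := φ.exists_bd
    obtain ⟨L, s, h'⟩ := ψ.exists_bd
    have h1 := φ.bd_mono (le_max_left K L) (le_max_left r s) h
    have h2 := ψ.bd_mono (le_max_right K L) (le_max_right r s) h'
    refine ⟨max K L, max r s, ?_⟩
    cases hrs : max r s <;> rw [hrs] at h1 h2 <;> exact ⟨h1, h2⟩
  | .all n φ => by
    obtain ⟨K, r, h⟩ := φ.exists_bd
    exact ⟨max K (n + 1), r + 1, lt_of_lt_of_le (Nat.lt_succ_self n) (le_max_right _ _),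
      φ.bd_mono (le_max_left _ _) le_rfl h⟩

/-- The types of depth `r`. -/
def Tp (K : ℕ) : ℕ → Type
  | 0 => Set (Set (Fin K) × Set (Fin K))
  | r + 1 => Tp K r × (Fin K → Set (Tp K r))

instance (K : ℕ) : ∀ r, Finite (Tp K r)
  | 0 => by
    unfold Tp
    infer_instance
  | r + 1 => by
    have := instFiniteTp K r
    unfold Tp
    infer_instance

variable {V : Type} (adj : V → V → Prop) {W : Type} (adj' : W → W → Prop) {K : ℕ}

/-- The pattern of a vertex. -/
def pat (K : ℕ) (v : ℕ → Set V) (x : V) : Set (Fin K) := {i | x ∈ v i}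

/-- The type of depth `0`: the pairs of patterns of adjacent vertices. -/
def tp0 (K : ℕ) (v : ℕ → Set V) : Set (Set (Fin K) × Set (Fin K)) :=
  {pq | ∃ x y, adj x y ∧ pat K v x = pq.1 ∧ pat K v y = pq.2}

/-- The value of a term as a set. -/
def mval (v : ℕ → Set V) (t : Tm) : Set V := (PS V adj).val v t

/-- The type of depth `r` of a sequence of sets. -/
def tp (K : ℕ) : (r : ℕ) → (ℕ → Set V) → Tp K r
  | 0, v => tp0 adj K v
  | r + 1, v => (tp K r v, fun n => {τ | ∃ b : Set V, τ = tp K r (Function.update v n b)})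

theorem mem_val_iff {v : ℕ → Set V} {v' : ℕ → Set W} {x : V} {y : W}
    (h : pat K v x = pat K v' y) : ∀ t : Tm, t.bd K →
      (x ∈ mval adj v t ↔ y ∈ mval adj' v' t)
  | .var n, ht => by
    have : (⟨n, ht⟩ : Fin K) ∈ pat K v x ↔ (⟨n, ht⟩ : Fin K) ∈ pat K v' y := by rw [h]
    exact this
  | .zero, _ => Iff.rfl
  | .one, _ => Iff.rfl
  | .mul s t, ht => and_congr (mem_val_iff h s ht.1) (mem_val_iff h t ht.2)
  | .add s t, ht => or_congr (mem_val_iff h s ht.1) (mem_val_iff h t ht.2)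
  | .star s, ht => not_congr (mem_val_iff h s ht)

theorem tp_zero_of_tp {v : ℕ → Set V} {v' : ℕ → Set W} : ∀ r : ℕ,
    tp adj K r v = tp adj' K r v' → tp0 adj K v = tp0 adj' K v'
  | 0, h => h
  | r + 1, h => tp_zero_of_tp r (congrArg Prod.fst h)

variable {adj adj'}

theorem exists_of_tp {v : ℕ → Set V} {v' : ℕ → Set W} (h : tp0 adj K v = tp0 adj' K v')
    {x y : V} (hxy : adj x y) :
    ∃ x' y', adj' x' y' ∧ pat K v x = pat K v' x' ∧ pat K v y = pat K v' y' := by
  have h1 : (pat K v x, pat K v y) ∈ tp0 adj K v :=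
    ⟨x, y, hxy, rfl, rfl⟩
  rw [h] at h1
  obtain ⟨x', y', h2, h3, h4⟩ := h1
  exact ⟨x', y', h2, h3.symm, h4.symm⟩

theorem eq_of_tp (hr : ∀ x, adj x x) {v : ℕ → Set V} {v' : ℕ → Set W}
    (h : tp0 adj K v = tp0 adj' K v') {s t : Tm} (hs : s.bd K) (ht : t.bd K)
    (he : (PS W adj').val v' s = (PS W adj').val v' t) :
    (PS V adj).val v s = (PS V adj).val v t := by
  have he' : mval adj' v' s = mval adj' v' t := he
  refine Set.ext (α := V) fun x => ?_
  obtain ⟨x', _, -, h1, -⟩ := exists_of_tp h (hr x)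
  change x ∈ mval adj v s ↔ x ∈ mval adj v t
  rw [mem_val_iff adj adj' h1 s hs, mem_val_iff adj adj' h1 t ht, he']

theorem con_of_tp {v : ℕ → Set V} {v' : ℕ → Set W}
    (h : tp0 adj K v = tp0 adj' K v') {s t : Tm} (hs : s.bd K) (ht : t.bd K)
    (he : (PS V adj).C ((PS V adj).val v s) ((PS V adj).val v t)) :
    (PS W adj').C ((PS W adj').val v' s) ((PS W adj').val v' t) := by
  obtain ⟨x, hx, y, hy, hxy⟩ := he
  obtain ⟨x', y', h1, h2, h3⟩ := exists_of_tp h hxy
  exact ⟨x', (mem_val_iff adj adj' h2 s hs).1 hx, y', (mem_val_iff adj adj' h3 t ht).1 hy, h1⟩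

/-- Sequences with the same type satisfy the same formulas. -/
theorem sat_iff_of_tp (hr : ∀ x, adj x x) (hr' : ∀ x, adj' x x) : ∀ (φ : Fm) (r : ℕ), φ.bd K r →
    ∀ {v : ℕ → Set V} {v' : ℕ → Set W}, tp adj K r v = tp adj' K r v' →
      ((PS V adj).Sat v φ ↔ (PS W adj').Sat v' φ)
  | .eq s t, r, hb, v, v', h => by
    have hb' : s.bd K ∧ t.bd K := by cases r <;> exact hb
    have h0 := tp_zero_of_tp adj adj' r h
    exact ⟨eq_of_tp hr' h0.symm hb'.1 hb'.2, eq_of_tp hr h0 hb'.1 hb'.2⟩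
  | .con s t, r, hb, v, v', h => by
    have hb' : s.bd K ∧ t.bd K := by cases r <;> exact hb
    have h0 := tp_zero_of_tp adj adj' r h
    exact ⟨con_of_tp h0 hb'.1 hb'.2, con_of_tp h0.symm hb'.1 hb'.2⟩
  | .neg φ, r, hb, v, v', h => by
    have hb' : φ.bd K r := by cases r <;> exact hb
    exact not_congr (sat_iff_of_tp hr hr' φ r hb' h)
  | .and φ ψ, r, hb, v, v', h => by
    have hb' : φ.bd K r ∧ ψ.bd K r := by cases r <;> exact hb
    exact and_congr (sat_iff_of_tp hr hr' φ r hb'.1 h) (sat_iff_of_tp hr hr' ψ r hb'.2 h)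
  | .all n φ, 0, hb, v, v', h => hb.elim
  | .all n φ, r + 1, hb, v, v', h => by
    have h2 := congrFun (congrArg Prod.snd h) ⟨n, hb.1⟩
    constructor
    · intro hs b'
      have h3 : tp adj' K r (Function.update v' n b') ∈
          (tp adj K (r + 1) v).2 ⟨n, hb.1⟩ := by
        rw [h2]
        exact ⟨b', rfl⟩
      obtain ⟨b, hb3⟩ := h3
      exact (sat_iff_of_tp hr hr' φ r hb.2 hb3.symm).1 (hs b)
    · intro hs b
      have h3 : tp adj K r (Function.update v n b) ∈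
          (tp adj' K (r + 1) v').2 ⟨n, hb.1⟩ := by
        rw [← h2]
        exact ⟨b, rfl⟩
      obtain ⟨b', hb3⟩ := h3
      exact (sat_iff_of_tp hr hr' φ r hb.2 hb3).2 (hs b')

section Sum

/-- Adjacency in a disjoint sum. -/
inductive SAdj {J : Type} {V : J → Type} (adj : ∀ j, V j → V j → Prop) :
    (Σ j, V j) → (Σ j, V j) → Prop
  | mk (j : J) (x y : V j) : adj j x y → SAdj adj ⟨j, x⟩ ⟨j, y⟩

/-- The sum of sequences of sets. -/
def sm {J : Type} {V : J → Type} (v : ∀ j, ℕ → Set (V j)) (n : ℕ) : Set (Σ j, V j) :=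
  {p | p.2 ∈ v p.1 n}

theorem pat_sm {J : Type} {V : J → Type} (v : ∀ j, ℕ → Set (V j)) (p : Σ j, V j) :
    pat K (sm v) p = pat K (v p.1) p.2 := rfl

theorem sm_update {J : Type} {V : J → Type} (v : ∀ j, ℕ → Set (V j)) (n : ℕ)
    (b : Set (Σ j, V j)) :
    Function.update (sm v) n b = sm fun j => Function.update (v j) n {x | ⟨j, x⟩ ∈ b} := by
  funext k
  ext p
  by_cases hk : k = n
  · subst hk
    simp [sm]
  · simp [sm, Function.update_of_ne hk]

/-- The type of a sum is determined by the types of the summands. -/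
theorem tp_sum {J : Type} {V W : J → Type} (adj : ∀ j, V j → V j → Prop)
    (adj' : ∀ j, W j → W j → Prop) : ∀ (r : ℕ) (v : ∀ j, ℕ → Set (V j)) (v' : ∀ j, ℕ → Set (W j)),
      (∀ j, tp (adj j) K r (v j) = tp (adj' j) K r (v' j)) →
        tp (SAdj adj) K r (sm v) = tp (SAdj adj') K r (sm v')
  | 0, v, v', h => by
    have key : ∀ {V W : J → Type} (adj : ∀ j, V j → V j → Prop) (adj' : ∀ j, W j → W j → Prop)
        (v : ∀ j, ℕ → Set (V j)) (v' : ∀ j, ℕ → Set (W j)),
        (∀ j, tp0 (adj j) K (v j) = tp0 (adj' j) K (v' j)) →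
        tp0 (SAdj adj) K (sm v) ⊆ tp0 (SAdj adj') K (sm v') := by
      rintro V W adj adj' v v' h ⟨p, q⟩ ⟨_, _, ⟨j, x, y, hxy⟩, h1, h2⟩
      obtain ⟨x', y', h3, h4, h5⟩ := exists_of_tp (h j) hxy
      refine ⟨⟨j, x'⟩, ⟨j, y'⟩, ⟨j, x', y', h3⟩, ?_, ?_⟩
      · rw [← h1, pat_sm, pat_sm]
        exact h4.symm
      · rw [← h2, pat_sm, pat_sm]
        exact h5.symm
    have e : tp0 (SAdj adj) K (sm v) = tp0 (SAdj adj') K (sm v') :=
      (key adj adj' v v' h).antisymm (key adj' adj v' v fun j => (h j).symm)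
    exact e
  | r + 1, v, v', h => by
    refine Prod.ext (tp_sum adj adj' r v v' fun j => congrArg Prod.fst (h j)) ?_
    funext n
    have key : ∀ {V W : J → Type} (adj : ∀ j, V j → V j → Prop) (adj' : ∀ j, W j → W j → Prop)
        (v : ∀ j, ℕ → Set (V j)) (v' : ∀ j, ℕ → Set (W j)),
        (∀ j, tp (adj j) K (r + 1) (v j) = tp (adj' j) K (r + 1) (v' j)) →
        (tp (SAdj adj) K (r + 1) (sm v)).2 n ⊆ (tp (SAdj adj') K (r + 1) (sm v')).2 n := by
      rintro V W adj adj' v v' h τ ⟨b, hb⟩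
      have h1 : ∀ j, ∃ b' : Set (W j), tp (adj j) K r (Function.update (v j) n {x | ⟨j, x⟩ ∈ b}) =
          tp (adj' j) K r (Function.update (v' j) n b') := by
        intro j
        have h2 : tp (adj j) K r (Function.update (v j) n {x | ⟨j, x⟩ ∈ b}) ∈
            (tp (adj' j) K (r + 1) (v' j)).2 n := by
          rw [← h j]
          exact ⟨_, rfl⟩
        exact h2
      choose b' hb' using h1
      refine ⟨{p | p.2 ∈ b' p.1}, ?_⟩
      rw [hb, sm_update, sm_update]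
      exact tp_sum adj adj' r _ _ hb'
    exact (key adj adj' v v' h).antisymm (key adj' adj v' v fun j => (h j).symm)

end Sum

end Pool.Agent.R620.NC
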